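import Pool.Agent.H94.RR.Main

set_option autoImplicit false

namespace Pool.Agent.H94.RR

open Finset SimpleGraph Filter
open scoped Classical

/-- the graph of the edges of `G` with the colour `i` -/
def colourClass {V : Type} (G : SimpleGraph V) (χ : Sym2 V → ℕ) (i : ℕ) : SimpleGraph V :=
  fromEdgeSet {e | e ∈ G.edgeSet ∧ χ e = i}

theorem colourClass_le {V : Type} (G : SimpleGraph V) (χ : Sym2 V → ℕ) (i : ℕ) :
    colourClass G χ i ≤ G := by
  intro u v h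
  unfold colourClass at h
  rw [fromEdgeSet_adj] at h
  exact h.1.1

/-- the edges of `G` can be coloured with `K` colours without a monochromatic `K_{s,t}` -/
def Colourable {V : Type} (s t K : ℕ) (G : SimpleGraph V) : Prop :=
  ∃ χ : Sym2 V → ℕ, (∀ e ∈ G.edgeSet, χ e < K) ∧
    ∀ i, (completeBipartiteGraph (Fin s) (Fin t)).Free (colourClass G χ i)

theorem colourable_of {V : Type} {s t K : ℕ} {G : SimpleGraph V}
    (hs : 1 ≤ s) (ht : 1 ≤ t) (A : Fin K → SimpleGraph V)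
    (h2 : ∀ j, Fr s t (A j)) (h3 : ∀ u v, G.Adj u v → ∃ j, (A j).Adj u v) :
    Colourable s t K G := by
  have h4 : ∀ e : Sym2 V, ∃ i : ℕ, e ∈ G.edgeSet → ∃ h : i < K, e ∈ (A ⟨i, h⟩).edgeSet := by
    intro e
    induction e using Sym2.ind with
    | _ u v =>
      by_cases h : G.Adj u v
      · obtain ⟨j, hj⟩ := h3 u v h
        exact ⟨j, fun _ => ⟨j.2, hj⟩⟩
      · exact ⟨0, fun h' => absurd h' h⟩
  choose χ hχ using h4
  refine ⟨χ, fun e he => (hχ e he).1, fun i => ?_⟩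
  rw [fr_iff]
  by_cases hi : i < K
  · refine (h2 ⟨i, hi⟩).mono ?_
    intro u v h
    unfold colourClass at h
    rw [fromEdgeSet_adj] at h
    obtain ⟨⟨he, hc⟩, -⟩ := h
    obtain ⟨hj, hj'⟩ := hχ s(u, v) he
    subst hc
    exact hj'
  · intro X Y hX hY hXY
    obtain ⟨x, hx⟩ : X.Nonempty := by rw [← Finset.card_pos]; omega
    obtain ⟨y, hy⟩ : Y.Nonempty := by rw [← Finset.card_pos]; omega
    have h := hXY x hx y hy
    unfold colourClass at h
    rw [fromEdgeSet_adj] at h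
    obtain ⟨⟨he, hc⟩, -⟩ := h
    have := (hχ _ he).1
    omega

theorem Colourable.mono {V : Type} {s t K K' : ℕ} {G : SimpleGraph V} (h : Colourable s t K G)
    (hK : K ≤ K') : Colourable s t K' G := by
  obtain ⟨χ, h1, h2⟩ := h
  exact ⟨χ, fun e he => (h1 e he).trans_le hK, h2⟩

theorem pigeon {V : Type} [Fintype V] {s t K : ℕ} {G : SimpleGraph V}
    (h : Colourable s t K G) : ∃ H : SimpleGraph V, H ≤ G ∧
      (completeBipartiteGraph (Fin s) (Fin t)).Free H ∧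
        Nat.card G.edgeSet ≤ K * Nat.card H.edgeSet := by
  obtain ⟨χ, h1, h2⟩ := h
  have e : ∀ i, Nat.card (colourClass G χ i).edgeSet = (G.edgeFinset.filter fun e => χ e = i).card := by
    intro i
    rw [Nat.card_eq_fintype_card, ← edgeFinset_card]
    congr 1
    ext e
    induction e using Sym2.ind with
    | _ u v =>
      rw [mem_edgeFinset, mem_edgeSet, Finset.mem_filter, mem_edgeFinset, mem_edgeSet]
      unfold colourClass
      rw [fromEdgeSet_adj]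
      constructor
      · rintro ⟨⟨ha, hb⟩, -⟩
        exact ⟨ha, hb⟩
      · rintro ⟨ha, hb⟩
        exact ⟨⟨ha, hb⟩, ha.ne⟩
  have hG : Nat.card G.edgeSet = ∑ i ∈ range K, Nat.card (colourClass G χ i).edgeSet := by
    rw [Nat.card_eq_fintype_card, ← edgeFinset_card]
    simp_rw [e]
    refine Finset.card_eq_sum_card_fiberwise fun e he => ?_
    rw [Finset.coe_range]
    exact h1 e (mem_edgeFinset.1 he)
  rcases Nat.eq_zero_or_pos K with hK | hK
  · subst hK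
    refine ⟨colourClass G χ 0, colourClass_le G χ 0, h2 0, ?_⟩
    rw [hG]
    simp
  · obtain ⟨i, -, hi⟩ := Finset.exists_max_image (range K)
      (fun i => Nat.card (colourClass G χ i).edgeSet) ⟨0, Finset.mem_range.2 hK⟩
    refine ⟨colourClass G χ i, colourClass_le G χ i, h2 i, ?_⟩
    rw [hG]
    refine (Finset.sum_le_card_nsmul _ _ _ hi).trans ?_
    rw [Finset.card_range, smul_eq_mul]

/-- the question for `K_{s,t}` -/
def Tight (s t : ℕ) : Prop :=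
  ∃ c : ℝ, 0 < c ∧ ∀ᶠ n : ℕ in atTop, c * (n : ℝ) ^ ((2 : ℝ) - 1 / (s : ℝ)) ≤
    (extremalNumber n (completeBipartiteGraph (Fin s) (Fin t)) : ℝ)

theorem edge_inst {V : Type} (H : SimpleGraph V) (i j : Fintype H.edgeSet) :
    (@edgeFinset _ H i).card = (@edgeFinset _ H j).card := by
  rw [Subsingleton.elim i j]

theorem M1_eq {N : ℕ} (H : SimpleGraph (Fin N)) : M1 H = 2 * (#H.edgeFinset : ℝ) := by
  unfold M1
  have h1 : ∀ a, ∑ b, ind (H.Adj a b) = (H.degree a : ℝ) := by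
    intro a
    rw [sum_ind, dg, ← card_neighborFinset_eq_degree, neighborFinset_eq_filter]
  simp_rw [h1]
  have := H.sum_degrees_eq_twice_card_edges
  exact_mod_cast this

theorem dense_of_tight {s t : ℕ} (hs : 1 ≤ s) (ht : 1 ≤ t) (h : Tight s t) :
    ∃ c : ℝ, 0 < c ∧ ∃ n₀, Dense s t c n₀ := by
  obtain ⟨c, hc, hev⟩ := h
  obtain ⟨n₀, hn₀⟩ := eventually_atTop.1 hev
  refine ⟨c, hc, max n₀ 1, fun N hN => ?_⟩
  have hN1 : 1 ≤ N := le_trans (le_max_right _ _) hN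
  have h1 := hn₀ N (le_trans (le_max_left _ _) hN)
  have hne : completeBipartiteGraph (Fin s) (Fin t) ≠ ⊥ := by
    intro hb
    have h2 : (completeBipartiteGraph (Fin s) (Fin t)).Adj (Sum.inl ⟨0, by omega⟩)
      (Sum.inr ⟨0, by omega⟩) := by simp
    rw [hb] at h2
    exact h2
  obtain ⟨H, inst, hH⟩ := exists_isExtremal_free (V := Fin N) hne
  refine ⟨H, (fr_iff s t H).1 hH.prop, ?_⟩
  have h3 := card_edgeFinset_of_isExtremal_free hH
  rw [Fintype.card_fin] at h3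
  rw [M1_eq]
  have h4 : ∀ i : Fintype H.edgeSet, (@edgeFinset _ H i).card =
      extremalNumber N (completeBipartiteGraph (Fin s) (Fin t)) := by
    intro i
    rw [← h3]
    exact edge_inst _ _ _
  rw [h4]
  have hN' : (0 : ℝ) < N := by exact_mod_cast hN1
  have h5 : (N : ℝ) ^ 2 * xx s N = (N : ℝ) ^ ((2 : ℝ) - 1 / (s : ℝ)) := by
    unfold xx
    rw [← Real.rpow_natCast, ← Real.rpow_add hN']
    congr 1
    push_cast
    ring
  rw [h5]
  linarith

theorem deg_eq {V : Type} [Fintype V] (G : SimpleGraph V) (v : V) :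
    (univ.filter fun w => G.Adj v w).card = (G.neighborSet v).ncard := by
  rw [← Set.ncard_coe_finset]
  congr 1
  ext w
  simp

theorem one_three {s t : ℕ} (hs : 2 ≤ s) (ht : 1 ≤ t) (h : Tight s t) :
    ∃ C : ℝ, ∀ (V : Type) [Fintype V] (G : SimpleGraph V) (D : ℕ), 1 ≤ D →
      (∀ v, (G.neighborSet v).ncard ≤ D) →
        ∃ K : ℕ, (K : ℝ) ≤ C * (D : ℝ) ^ (1 / (s : ℝ)) ∧ Colourable s t K G := by
  obtain ⟨c, hc, n₀, hd⟩ := dense_of_tight (by omega) ht h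
  obtain ⟨A, -, hA⟩ := main hs ht c hc n₀ hd
  refine ⟨A, fun V _ G D hD hG => ?_⟩
  obtain ⟨K, hK, hcov⟩ := hA D hD
  obtain ⟨B, -, hB2, hB3⟩ := hcov V G fun v => by rw [deg_eq]; exact hG v
  exact ⟨K, hK, colourable_of (by omega) ht B hB2 hB3⟩

theorem top_deg (n : ℕ) (v : Fin n) : ((⊤ : SimpleGraph (Fin n)).neighborSet v).ncard ≤ n - 1 := by
  have h : (⊤ : SimpleGraph (Fin n)).neighborSet v = ((univ.erase v : Finset (Fin n)) : Set (Fin n)) := by
    ext w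
    simp [eq_comm]
  rw [h, Set.ncard_coe_finset, Finset.card_erase_of_mem (Finset.mem_univ _), Finset.card_univ,
    Fintype.card_fin]

theorem top_edges (n : ℕ) : (Nat.card (⊤ : SimpleGraph (Fin n)).edgeSet : ℝ) = n * (n - 1) / 2 := by
  rw [Nat.card_eq_fintype_card, ← edgeFinset_card]
  have h := card_edgeFinset_top_eq_card_choose_two (V := Fin n)
  rw [Fintype.card_fin] at h
  rw [← Nat.cast_choose_two]
  have h2 : ∀ i : Fintype (⊤ : SimpleGraph (Fin n)).edgeSet,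
      (@edgeFinset _ (⊤ : SimpleGraph (Fin n)) i).card = n.choose 2 := by
    intro i
    rw [← h]
    exact edge_inst _ _ _
  rw [h2]

theorem le_ex {s t n : ℕ} (H : SimpleGraph (Fin n))
    (hH : (completeBipartiteGraph (Fin s) (Fin t)).Free H) :
    Nat.card H.edgeSet ≤ extremalNumber n (completeBipartiteGraph (Fin s) (Fin t)) := by
  rw [Nat.card_eq_fintype_card, ← edgeFinset_card]
  have := card_edgeFinset_le_extremalNumber hH
  rw [Fintype.card_fin] at this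
  convert this

theorem three_two {s t : ℕ} (hs : 1 ≤ s) (ht : 1 ≤ t)
    (h : ∃ C : ℝ, ∀ (V : Type) [Fintype V] (G : SimpleGraph V) (D : ℕ), 1 ≤ D →
      (∀ v, (G.neighborSet v).ncard ≤ D) →
        ∃ K : ℕ, (K : ℝ) ≤ C * (D : ℝ) ^ (1 / (s : ℝ)) ∧ Colourable s t K G) :
    ∃ c : ℝ, 0 < c ∧ ∀ k n : ℕ, 1 ≤ k → (n : ℝ) ≤ c * (k : ℝ) ^ s →
      Colourable s t k (⊤ : SimpleGraph (Fin n)) := by
  obtain ⟨C, hC⟩ := h
  set C' := max C 1 with hC'
  have hC'1 : 1 ≤ C' := le_max_right _ _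
  have hC'0 : 0 < C' := by linarith
  have hs' : (0 : ℝ) < s := by exact_mod_cast hs
  refine ⟨(C'⁻¹) ^ s, by positivity, fun k n hk hn => ?_⟩
  rcases Nat.lt_or_ge n 2 with h | h
  · refine colourable_of hs ht (fun _ => ⊥) (fun j X Y hX hY hXY => ?_) (fun u v huv => ?_)
    · obtain ⟨x, hx⟩ : X.Nonempty := by rw [← Finset.card_pos]; omega
      obtain ⟨y, hy⟩ : Y.Nonempty := by rw [← Finset.card_pos]; omega
      exact hXY x hx y hy
    · exfalso
      have hne : u ≠ v := huv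
      exact hne (Fin.ext (by have := u.2; have := v.2; omega))
  · obtain ⟨K, hK, hcol⟩ := hC (Fin n) ⊤ (n - 1) (by omega) (top_deg n)
    refine hcol.mono ?_
    have h1 : ((n - 1 : ℕ) : ℝ) ≤ (C'⁻¹ * k) ^ s := by
      rw [mul_pow]
      refine le_trans ?_ hn
      exact_mod_cast Nat.sub_le _ _
    have h2 : ((n - 1 : ℕ) : ℝ) ^ (1 / (s : ℝ)) ≤ C'⁻¹ * k := by
      calc ((n - 1 : ℕ) : ℝ) ^ (1 / (s : ℝ)) ≤ ((C'⁻¹ * k) ^ s) ^ (1 / (s : ℝ)) :=
            Real.rpow_le_rpow (Nat.cast_nonneg _) h1 (by positivity)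
        _ = C'⁻¹ * k := by
            rw [← Real.rpow_natCast, ← Real.rpow_mul (by positivity), mul_one_div_cancel hs'.ne',
              Real.rpow_one]
    have h3 : (K : ℝ) ≤ k := by
      calc (K : ℝ) ≤ C * ((n - 1 : ℕ) : ℝ) ^ (1 / (s : ℝ)) := hK
        _ ≤ C' * ((n - 1 : ℕ) : ℝ) ^ (1 / (s : ℝ)) :=
            mul_le_mul_of_nonneg_right (le_max_left _ _) (by positivity)
        _ ≤ C' * (C'⁻¹ * k) := mul_le_mul_of_nonneg_left h2 hC'0.le
        _ = k := by field_simp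
    exact_mod_cast h3

theorem two_one {s t : ℕ} (hs : 1 ≤ s)
    (h : ∃ c : ℝ, 0 < c ∧ ∀ k n : ℕ, 1 ≤ k → (n : ℝ) ≤ c * (k : ℝ) ^ s →
      Colourable s t k (⊤ : SimpleGraph (Fin n))) : Tight s t := by
  obtain ⟨c, hc, hcol⟩ := h
  have hs' : (0 : ℝ) < s := by exact_mod_cast hs
  refine ⟨c ^ (1 / (s : ℝ)) / 8, by positivity, ?_⟩
  rw [eventually_atTop]
  refine ⟨⌈c⌉₊ + 2, fun n hn => ?_⟩
  have hn2 : 2 ≤ n := by omega
  have hn2' : (2 : ℝ) ≤ n := by exact_mod_cast hn2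
  have hn0 : (0 : ℝ) < n := by linarith
  have hcn : c ≤ n := by
    refine (Nat.le_ceil c).trans ?_
    exact_mod_cast (by omega : ⌈c⌉₊ ≤ n)
  set r : ℝ := ((n : ℝ) / c) ^ (1 / (s : ℝ)) with hr
  have hr1 : 1 ≤ r := by
    refine Real.one_le_rpow ?_ (by positivity)
    rw [le_div_iff₀ hc]
    linarith
  set k : ℕ := ⌈r⌉₊ with hk
  have hk1 : r ≤ k := Nat.le_ceil r
  have hk2 : (k : ℝ) ≤ 2 * r := by
    have := (Nat.ceil_lt_add_one (show 0 ≤ r by linarith)).le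
    rw [← hk] at this
    linarith
  have hk0 : 1 ≤ k := by
    have : (1 : ℝ) ≤ k := hr1.trans hk1
    exact_mod_cast this
  have hnk : (n : ℝ) ≤ c * (k : ℝ) ^ s := by
    have h1 : r ^ s = n / c := by
      rw [hr, ← Real.rpow_natCast, ← Real.rpow_mul (by positivity), one_div_mul_cancel hs'.ne',
        Real.rpow_one]
    have h2 : r ^ s ≤ (k : ℝ) ^ s := pow_le_pow_left₀ (by linarith) hk1 s
    rw [h1, div_le_iff₀ hc] at h2
    linarith
  obtain ⟨H, -, hH, he⟩ := pigeon (hcol k n hk0 hnk)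
  have h1 : (n : ℝ) * (n - 1) / 2 ≤ k * (Nat.card H.edgeSet : ℝ) := by
    rw [← top_edges n]
    exact_mod_cast he
  have h2 : (Nat.card H.edgeSet : ℝ) ≤ extremalNumber n (completeBipartiteGraph (Fin s) (Fin t)) := by
    exact_mod_cast le_ex H hH
  refine le_trans ?_ h2
  have h3 : (n : ℝ) ^ 2 / 4 ≤ 2 * r * (Nat.card H.edgeSet : ℝ) := by
    have h4 : k * (Nat.card H.edgeSet : ℝ) ≤ 2 * r * (Nat.card H.edgeSet : ℝ) :=
      mul_le_mul_of_nonneg_right hk2 (Nat.cast_nonneg _)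
    nlinarith
  have hr0 : 0 < r := by linarith
  have h4 : (n : ℝ) ^ 2 / 8 / r ≤ Nat.card H.edgeSet := by
    rw [div_le_iff₀ hr0]
    linarith
  refine le_trans (le_of_eq ?_) h4
  rw [hr, Real.div_rpow hn0.le hc.le, Real.rpow_sub hn0]
  have : (n : ℝ) ^ (2 : ℝ) = (n : ℝ) ^ 2 := by
    rw [← Real.rpow_natCast]; norm_num
  rw [this]
  field_simp

theorem three_four {s t : ℕ}
    (h : ∃ C : ℝ, ∀ (V : Type) [Fintype V] (G : SimpleGraph V) (D : ℕ), 1 ≤ D →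
      (∀ v, (G.neighborSet v).ncard ≤ D) →
        ∃ K : ℕ, (K : ℝ) ≤ C * (D : ℝ) ^ (1 / (s : ℝ)) ∧ Colourable s t K G) :
    ∃ c : ℝ, 0 < c ∧ ∀ (V : Type) [Fintype V] (G : SimpleGraph V) (D : ℕ), 1 ≤ D →
      (∀ v, (G.neighborSet v).ncard ≤ D) → ∃ H : SimpleGraph V, H ≤ G ∧
        (completeBipartiteGraph (Fin s) (Fin t)).Free H ∧
        c * Nat.card G.edgeSet / (D : ℝ) ^ (1 / (s : ℝ)) ≤ Nat.card H.edgeSet := by
  obtain ⟨C, hC⟩ := h
  set C' := max C 1 with hC'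
  have hC'1 : 1 ≤ C' := le_max_right _ _
  have hC'0 : 0 < C' := by linarith
  refine ⟨C'⁻¹, by positivity, fun V _ G D hD hG => ?_⟩
  obtain ⟨K, hK, hcol⟩ := hC V G D hD hG
  obtain ⟨H, hHG, hH, he⟩ := pigeon hcol
  refine ⟨H, hHG, hH, ?_⟩
  have hD0 : (0 : ℝ) < D := by exact_mod_cast hD
  have hDs : 0 < (D : ℝ) ^ (1 / (s : ℝ)) := Real.rpow_pos_of_pos hD0 _
  rw [div_le_iff₀ hDs]
  have h1 : (Nat.card G.edgeSet : ℝ) ≤ K * Nat.card H.edgeSet := by exact_mod_cast he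
  have h2 : (K : ℝ) ≤ C' * (D : ℝ) ^ (1 / (s : ℝ)) :=
    hK.trans (mul_le_mul_of_nonneg_right (le_max_left _ _) hDs.le)
  calc C'⁻¹ * (Nat.card G.edgeSet : ℝ) ≤ C'⁻¹ * (C' * (D : ℝ) ^ (1 / (s : ℝ)) * Nat.card H.edgeSet) := by
        refine mul_le_mul_of_nonneg_left (h1.trans ?_) (by positivity)
        exact mul_le_mul_of_nonneg_right h2 (Nat.cast_nonneg _)
    _ = Nat.card H.edgeSet * (D : ℝ) ^ (1 / (s : ℝ)) := by field_simp

theorem four_one {s t : ℕ} (hs : 1 ≤ s)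
    (h : ∃ c : ℝ, 0 < c ∧ ∀ (V : Type) [Fintype V] (G : SimpleGraph V) (D : ℕ), 1 ≤ D →
      (∀ v, (G.neighborSet v).ncard ≤ D) → ∃ H : SimpleGraph V, H ≤ G ∧
        (completeBipartiteGraph (Fin s) (Fin t)).Free H ∧
        c * Nat.card G.edgeSet / (D : ℝ) ^ (1 / (s : ℝ)) ≤ Nat.card H.edgeSet) : Tight s t := by
  obtain ⟨c, hc, hH⟩ := h
  have hs' : (0 : ℝ) < s := by exact_mod_cast hs
  refine ⟨c / 4, by positivity, ?_⟩
  rw [eventually_atTop]
  refine ⟨2, fun n hn => ?_⟩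
  have hn2' : (2 : ℝ) ≤ n := by exact_mod_cast hn
  have hn0 : (0 : ℝ) < n := by linarith
  obtain ⟨H, -, hf, he⟩ := hH (Fin n) ⊤ (n - 1) (by omega) (top_deg n)
  have h2 : (Nat.card H.edgeSet : ℝ) ≤ extremalNumber n (completeBipartiteGraph (Fin s) (Fin t)) := by
    exact_mod_cast le_ex H hf
  refine le_trans (le_trans ?_ he) h2
  rw [top_edges]
  have h3 : ((n - 1 : ℕ) : ℝ) ^ (1 / (s : ℝ)) ≤ (n : ℝ) ^ (1 / (s : ℝ)) := by
    refine Real.rpow_le_rpow (Nat.cast_nonneg _) ?_ (by positivity)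
    exact_mod_cast Nat.sub_le _ _
  have h4 : 0 < ((n - 1 : ℕ) : ℝ) ^ (1 / (s : ℝ)) := by
    refine Real.rpow_pos_of_pos ?_ _
    exact_mod_cast (by omega : 0 < n - 1)
  rw [Real.rpow_sub hn0]
  have h5 : (n : ℝ) ^ (2 : ℝ) = (n : ℝ) ^ 2 := by
    rw [← Real.rpow_natCast]; norm_num
  rw [h5, ← mul_div_assoc]
  refine div_le_div₀ ?_ ?_ h4 h3
  · have : 0 ≤ (n : ℝ) - 1 := by linarith
    positivity
  · have h6 : (n : ℝ) ^ 2 / 4 ≤ n * (n - 1) / 2 := by nlinarith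
    calc c / 4 * (n : ℝ) ^ 2 = c * ((n : ℝ) ^ 2 / 4) := by ring
      _ ≤ c * (n * (n - 1) / 2) := mul_le_mul_of_nonneg_left h6 hc.le

end Pool.Agent.H94.RR
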