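import Mathlib

set_option autoImplicit false

namespace Pool.Agent.H94.RR

open Finset SimpleGraph
open scoped Classical

/-- `G` contains no complete bipartite graph with parts of `s` and `t` vertices -/
def Fr {V : Type} (s t : ℕ) (G : SimpleGraph V) : Prop :=
  ∀ X Y : Finset V, X.card = s → Y.card = t → ¬ ∀ x ∈ X, ∀ y ∈ Y, G.Adj x y

theorem fr_iff {V : Type} (s t : ℕ) (G : SimpleGraph V) :
    (completeBipartiteGraph (Fin s) (Fin t)).Free G ↔ Fr s t G := by
  unfold SimpleGraph.Free Fr
  rw [completeBipartiteGraph_isContained_iff]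
  constructor
  · intro h X Y hX hY hXY
    exact h ⟨X, Y, by rw [hX, Fintype.card_fin], by rw [hY, Fintype.card_fin],
      fun x hx y hy => hXY x hx y hy⟩
  · rintro h ⟨X, Y, hX, hY, hXY⟩
    exact h X Y (by rw [hX, Fintype.card_fin]) (by rw [hY, Fintype.card_fin])
      fun x hx y hy => hXY hx hy

theorem Fr.mono {V : Type} {s t : ℕ} {G G' : SimpleGraph V} (h : Fr s t G) (hG : G' ≤ G) :
    Fr s t G' := fun X Y hX hY hXY => h X Y hX hY fun x hx y hy => hG (hXY x hx y hy)

/-- the edges `uv` of `G` which `f` maps to edges of `H` such that no other neighbour of `u` has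
the same image as `v` and vice versa -/
def kept {V C : Type} (G : SimpleGraph V) (H : SimpleGraph C) (f : V → C) : SimpleGraph V where
  Adj u v := G.Adj u v ∧ H.Adj (f u) (f v) ∧ (∀ w, G.Adj u w → w ≠ v → f w ≠ f v) ∧
    ∀ w, G.Adj v w → w ≠ u → f w ≠ f u
  symm := ⟨fun _ _ h => ⟨h.1.symm, h.2.1.symm, h.2.2.2, h.2.2.1⟩⟩
  loopless := ⟨fun u h => G.loopless.irrefl u h.1⟩

theorem kept_le {V C : Type} (G : SimpleGraph V) (H : SimpleGraph C) (f : V → C) :
    kept G H f ≤ G := fun _ _ h => h.1

theorem kept_fr {V C : Type} {s t : ℕ} (hs : 1 ≤ s) (ht : 1 ≤ t) (G : SimpleGraph V)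
    (H : SimpleGraph C) (hH : Fr s t H) (f : V → C) : Fr s t (kept G H f) := by
  intro X Y hX hY hXY
  obtain ⟨x, hx⟩ : X.Nonempty := by rw [← Finset.card_pos]; omega
  obtain ⟨y, hy⟩ : Y.Nonempty := by rw [← Finset.card_pos]; omega
  have h1 : Set.InjOn f (Y : Set V) := by
    intro a ha b hb hab
    by_contra hne
    exact (hXY x hx b hb).2.2.1 a (hXY x hx a ha).1 hne hab
  have h2 : Set.InjOn f (X : Set V) := by
    intro a ha b hb hab
    by_contra hne
    exact (hXY b hb y hy).2.2.2 a (hXY a ha y hy).1.symm hne hab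
  refine hH (X.image f) (Y.image f) ?_ ?_ ?_
  · rw [Finset.card_image_of_injOn h2, hX]
  · rw [Finset.card_image_of_injOn h1, hY]
  · intro a' ha' b' hb'
    obtain ⟨a, ha, rfl⟩ := Finset.mem_image.1 ha'
    obtain ⟨b, hb, rfl⟩ := Finset.mem_image.1 hb'
    exact (hXY a ha b hb).2.1

section Avg

variable {V C : Type} [Fintype V] [Fintype C]

/-- resampling one coordinate does not change the average -/
theorem sum_update (F : (V → C) → ℝ) (v : V) :
    ∑ f : V → C, ∑ c : C, F (Function.update f v c) = (Fintype.card C : ℝ) * ∑ f : V → C, F f := by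
  have h1 : ∑ f : V → C, ∑ c : C, F (Function.update f v c) =
      ∑ p : (V → C) × C, F (Function.update p.1 v p.2) := by
    rw [Fintype.sum_prod_type]
  have h2 : ∑ p : (V → C) × C, F (Function.update p.1 v p.2) = ∑ p : (V → C) × C, F p.1 := by
    refine Fintype.sum_equiv
      { toFun := fun p => (Function.update p.1 v p.2, p.1 v)
        invFun := fun p => (Function.update p.1 v p.2, p.1 v)
        left_inv := fun p => by simp
        right_inv := fun p => by simp } _ _ fun p => rfl
  rw [h1, h2, Fintype.sum_prod_type]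
  simp only [Finset.sum_const, Finset.card_univ, nsmul_eq_mul, ← Finset.mul_sum]

theorem sum_two (P : C → C → ℝ) {v w : V} (h : v ≠ w) :
    (Fintype.card C : ℝ) ^ 2 * ∑ f : V → C, P (f v) (f w) =
      (Fintype.card (V → C) : ℝ) * ∑ a : C, ∑ b : C, P a b := by
  have h1 := sum_update (fun f : V → C => P (f v) (f w)) v
  have h2 := sum_update (fun f : V → C => ∑ c : C, P c (f w)) w
  simp only [Function.update_self, Function.update_of_ne h.symm] at h1 h2
  rw [sq, mul_assoc, ← h1, ← h2, Finset.sum_const, Finset.card_univ, nsmul_eq_mul,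
    Finset.sum_comm]

theorem sum_three (P : C → C → C → ℝ) {v w u : V} (h : v ≠ w) (h' : v ≠ u) (h'' : w ≠ u) :
    (Fintype.card C : ℝ) ^ 3 * ∑ f : V → C, P (f v) (f w) (f u) =
      (Fintype.card (V → C) : ℝ) * ∑ a : C, ∑ b : C, ∑ c : C, P a b c := by
  have h1 := sum_update (fun f : V → C => P (f v) (f w) (f u)) v
  have h2 := sum_update (fun f : V → C => ∑ a : C, P a (f w) (f u)) w
  have h3 := sum_update (fun f : V → C => ∑ b : C, ∑ a : C, P a b (f u)) u
  simp only [Function.update_self, Function.update_of_ne h.symm, Function.update_of_ne h'.symm,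
    Function.update_of_ne h''.symm] at h1 h2 h3
  rw [pow_succ, sq, mul_assoc, mul_assoc, ← h1, ← h2, ← h3, Finset.sum_const, Finset.card_univ,
    nsmul_eq_mul]
  congr 1
  rw [Finset.sum_comm]
  calc ∑ b : C, ∑ c : C, ∑ a : C, P a b c = ∑ b : C, ∑ a : C, ∑ c : C, P a b c :=
        Finset.sum_congr rfl fun b _ => Finset.sum_comm
    _ = _ := Finset.sum_comm

end Avg

end Pool.Agent.H94.RR
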