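import Pool.Agent.H94.RR.Fin
import Pool.Graph.R_pool_sql_team_seeded_1acbe0a2.Y384.AS.Lower

set_option autoImplicit false

namespace Pool.Agent.H94.RR

open Finset SimpleGraph Filter
open scoped Classical

theorem tight_of_factorial {s t : ℕ} (hs : 2 ≤ s) (ht : (s - 1).factorial < t) : Tight s t := by
  refine ⟨1 / (2 * 2 ^ (2 * s + 3)), by positivity, ?_⟩
  rw [eventually_atTop]
  refine ⟨2 ^ (2 * s + 1), fun n hn => ?_⟩
  obtain ⟨G, Z, hG, hZ, -, he⟩ := Pool.Agent.Y384.AS.lower s 0 t hs (by omega) n (by omega)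
  have hZ0 : Z = ∅ := Finset.card_eq_zero.1 hZ
  subst hZ0
  have h1 : {p : Fin n × Fin n | p.1 ∉ (∅ : Finset (Fin n)) ∧ p.2 ∉ (∅ : Finset (Fin n)) ∧
      G.Adj p.1 p.2}.ncard = 2 * Nat.card G.edgeSet := by
    have h2 : {p : Fin n × Fin n | p.1 ∉ (∅ : Finset (Fin n)) ∧ p.2 ∉ (∅ : Finset (Fin n)) ∧
      G.Adj p.1 p.2} = ((univ.filter fun p : Fin n × Fin n => G.Adj p.1 p.2 :
        Finset (Fin n × Fin n)) : Set (Fin n × Fin n)) := by
      ext p
      simp
    rw [h2, Set.ncard_coe_finset, Nat.card_eq_fintype_card, ← edgeFinset_card,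
      ← G.sum_degrees_eq_twice_card_edges]
    rw [Finset.card_filter, ← Finset.univ_product_univ, Finset.sum_product]
    refine Finset.sum_congr rfl fun a _ => ?_
    rw [← Finset.card_filter, ← card_neighborFinset_eq_degree, neighborFinset_eq_filter]
  rw [h1] at he
  have h3 : Nat.card G.edgeSet ≤ extremalNumber n (completeBipartiteGraph (Fin s) (Fin t)) :=
    le_ex G hG
  have h4 : (Nat.card G.edgeSet : ℝ) ≤
      extremalNumber n (completeBipartiteGraph (Fin s) (Fin t)) := by exact_mod_cast h3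
  push_cast at he
  rw [div_mul_eq_mul_div, one_mul, div_le_iff₀ (by positivity)]
  nlinarith [show (0 : ℝ) < 2 ^ (2 * s + 3) by positivity]

end Pool.Agent.H94.RR
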