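import Pool.Agent.H94.RR.Round

set_option autoImplicit false

namespace Pool.Agent.H94.RR

open Finset SimpleGraph
open scoped Classical

variable {C : Type} [Fintype C]

/-- the degree -/
noncomputable def dg (H : SimpleGraph C) (a : C) : ℕ := (univ.filter fun b => H.Adj a b).card

theorem sum_ind (H : SimpleGraph C) (a : C) : ∑ b : C, ind (H.Adj a b) = dg H a := by
  unfold ind dg
  rw [Finset.sum_ite, Finset.sum_const_zero, add_zero, Finset.sum_const, nsmul_eq_mul, mul_one]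

/-- the double counting of Kővári, Sós and Turán -/
theorem kst {s t : ℕ} (ht : 1 ≤ t) (H : SimpleGraph C) (hH : Fr s t H) :
    ∑ a : C, (dg H a).choose s ≤ (t - 1) * (Fintype.card C).choose s := by
  have h1 : ∑ a : C, (dg H a).choose s =
      ∑ S ∈ (univ : Finset C).powersetCard s, (univ.filter fun a => ∀ x ∈ S, H.Adj x a).card := by
    simp_rw [Finset.card_filter]
    rw [Finset.sum_comm]
    refine Finset.sum_congr rfl fun a _ => ?_
    rw [← Finset.card_filter, dg, ← Finset.card_powersetCard]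
    congr 1
    ext S
    simp only [Finset.mem_powersetCard, Finset.mem_filter, Finset.subset_iff, Finset.mem_univ,
      true_and]
    constructor
    · rintro ⟨ha, hb⟩
      exact ⟨⟨fun _ _ => trivial, hb⟩, fun x hx => (ha hx).symm⟩
    · rintro ⟨⟨-, hb⟩, ha⟩
      exact ⟨fun x hx => (ha x hx).symm, hb⟩
  rw [h1]
  refine (Finset.sum_le_card_nsmul _ _ (t - 1) fun S hS => ?_).trans ?_
  · rw [Finset.mem_powersetCard] at hS
    by_contra hlt
    push Not at hlt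
    obtain ⟨T, hT, hTc⟩ := Finset.exists_subset_card_eq
      (show t ≤ (univ.filter fun a => ∀ x ∈ S, H.Adj x a).card by omega)
    exact hH S T hS.2 hTc fun x hx y hy => (Finset.mem_filter.1 (hT hy)).2 x hx
  · rw [Finset.card_powersetCard, Finset.card_univ, smul_eq_mul, mul_comm]

theorem pow_bound (s d : ℕ) : (d : ℝ) ^ s ≤ 2 ^ s * (s.factorial * d.choose s + (s : ℝ) ^ s) := by
  have h1 : (d : ℝ) ≤ ((d + 1 - s : ℕ) : ℝ) + s := by
    have : d ≤ (d + 1 - s) + s := by omega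
    exact_mod_cast this
  have h2 : (d : ℝ) ^ s ≤ (((d + 1 - s : ℕ) : ℝ) + s) ^ s :=
    pow_le_pow_left₀ (Nat.cast_nonneg _) h1 s
  have h3 : (((d + 1 - s : ℕ) : ℝ) + s) ^ s ≤
      2 ^ (s - 1) * ((((d + 1 - s : ℕ) : ℝ)) ^ s + (s : ℝ) ^ s) :=
    add_pow_le (Nat.cast_nonneg _) (Nat.cast_nonneg _) s
  have h4 : (((d + 1 - s : ℕ) : ℝ)) ^ s ≤ s.factorial * d.choose s := by
    have := Nat.pow_le_choose (α := ℝ) s d
    rw [div_le_iff₀ (by positivity)] at this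
    linarith
  have h5 : (2 : ℝ) ^ (s - 1) ≤ 2 ^ s := pow_le_pow_right₀ (by norm_num) (Nat.sub_le _ _)
  calc (d : ℝ) ^ s ≤ 2 ^ (s - 1) * ((((d + 1 - s : ℕ) : ℝ)) ^ s + (s : ℝ) ^ s) := h2.trans h3
    _ ≤ 2 ^ s * (s.factorial * d.choose s + (s : ℝ) ^ s) := by
      refine mul_le_mul h5 (by linarith) (by positivity) (by positivity)

/-- the sum of the `s`-th powers of the degrees -/
theorem sum_pow {s t : ℕ} (hs : 1 ≤ s) (ht : 1 ≤ t) (H : SimpleGraph C) (hH : Fr s t H) :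
    ∑ a : C, (dg H a : ℝ) ^ s ≤ 2 ^ s * (t + (s : ℝ) ^ s) * (Fintype.card C : ℝ) ^ s := by
  set N := Fintype.card C with hN
  have h1 : ∑ a : C, (dg H a : ℝ) ^ s ≤
      ∑ a : C, 2 ^ s * (s.factorial * (dg H a).choose s + (s : ℝ) ^ s) :=
    Finset.sum_le_sum fun a _ => pow_bound s _
  refine h1.trans ?_
  rw [← Finset.mul_sum, Finset.sum_add_distrib, ← Finset.mul_sum, Finset.sum_const,
    Finset.card_univ, nsmul_eq_mul, mul_assoc]
  refine mul_le_mul_of_nonneg_left ?_ (by positivity)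
  have h2 : (∑ a : C, ((dg H a).choose s : ℝ)) ≤ (t - 1 : ℕ) * (N.choose s : ℝ) := by
    exact_mod_cast kst ht H hH
  have h3 : (s.factorial : ℝ) * N.choose s ≤ (N : ℝ) ^ s := by
    have := Nat.choose_le_pow_div (α := ℝ) s N
    rw [le_div_iff₀ (by positivity)] at this
    linarith
  have h4 : (N : ℝ) ≤ (N : ℝ) ^ s := by
    rcases Nat.eq_zero_or_pos N with h | h
    · rw [h]; simp [show s ≠ 0 by omega]
    · have h1N : (1 : ℝ) ≤ N := by exact_mod_cast h
      calc (N : ℝ) = (N : ℝ) ^ 1 := (pow_one _).symm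
        _ ≤ (N : ℝ) ^ s := pow_le_pow_right₀ h1N hs
  have h5 : ((t - 1 : ℕ) : ℝ) ≤ t := by exact_mod_cast Nat.sub_le _ _
  have h6 : (s.factorial : ℝ) * ∑ a : C, ((dg H a).choose s : ℝ) ≤ t * (N : ℝ) ^ s := by
    calc (s.factorial : ℝ) * ∑ a : C, ((dg H a).choose s : ℝ)
        ≤ s.factorial * ((t - 1 : ℕ) * (N.choose s : ℝ)) :=
          mul_le_mul_of_nonneg_left h2 (by positivity)
      _ = ((t - 1 : ℕ) : ℝ) * (s.factorial * N.choose s) := by ring
      _ ≤ t * (N : ℝ) ^ s := mul_le_mul h5 h3 (by positivity) (by positivity)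
  have h7 : (N : ℝ) * (s : ℝ) ^ s ≤ (s : ℝ) ^ s * (N : ℝ) ^ s := by
    rw [mul_comm]
    exact mul_le_mul_of_nonneg_left h4 (by positivity)
  rw [← hN]
  calc (s.factorial : ℝ) * ∑ a : C, ((dg H a).choose s : ℝ) + (N : ℝ) * (s : ℝ) ^ s
      ≤ t * (N : ℝ) ^ s + (s : ℝ) ^ s * (N : ℝ) ^ s := add_le_add h6 h7
    _ = (t + (s : ℝ) ^ s) * (N : ℝ) ^ s := by ring

theorem sq_split {s : ℕ} (hs : 2 ≤ s) {d l : ℝ} (hd : 0 ≤ d) (hl : 0 < l) :
    d ^ 2 ≤ l ^ 2 + d ^ s / l ^ (s - 2) := by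
  rcases le_or_gt d l with h | h
  · have := pow_le_pow_left₀ hd h 2
    have h2 : 0 ≤ d ^ s / l ^ (s - 2) := by positivity
    linarith
  · have h1 : d ^ 2 ≤ d ^ s / l ^ (s - 2) := by
      rw [le_div_iff₀ (by positivity)]
      calc d ^ 2 * l ^ (s - 2) ≤ d ^ 2 * d ^ (s - 2) :=
            mul_le_mul_of_nonneg_left (pow_le_pow_left₀ hl.le h.le _) (by positivity)
        _ = d ^ s := by rw [← pow_add]; congr 1; omega
    have := sq_nonneg l
    linarith

/-- the constant of the next theorem -/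
noncomputable def KB (s t : ℕ) : ℝ := 1 + 2 ^ s * (t + (s : ℝ) ^ s)

theorem KB_pos (s t : ℕ) : 0 < KB s t := by unfold KB; positivity

/-- the sum of the squares of the degrees -/
theorem M2_le {s t : ℕ} (hs : 2 ≤ s) (ht : 1 ≤ t) (H : SimpleGraph C) (hH : Fr s t H)
    (hN : 0 < Fintype.card C) :
    M2 H ≤ KB s t * (Fintype.card C : ℝ) ^ (3 : ℝ) *
      ((Fintype.card C : ℝ) ^ (-(1 : ℝ) / s)) ^ 2 := by
  set N : ℝ := (Fintype.card C : ℝ) with hNdef
  have hN' : 0 < N := Nat.cast_pos.2 hN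
  have hs' : (0 : ℝ) < s := by exact_mod_cast (by omega : 0 < s)
  set x : ℝ := N ^ (-(1 : ℝ) / s) with hx
  have hx0 : 0 < x := Real.rpow_pos_of_pos hN' _
  have hxs : x ^ s = N⁻¹ := by
    rw [hx, ← Real.rpow_natCast, ← Real.rpow_mul hN'.le]
    rw [show -(1 : ℝ) / s * (s : ℕ) = -1 by field_simp]
    exact Real.rpow_neg_one N
  have h1 : M2 H = ∑ a : C, (dg H a : ℝ) ^ 2 := by
    unfold M2
    exact Finset.sum_congr rfl fun a _ => by rw [sum_ind]
  have h2 : ∑ a : C, (dg H a : ℝ) ^ 2 ≤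
      ∑ a : C, ((N * x) ^ 2 + (dg H a : ℝ) ^ s / (N * x) ^ (s - 2)) :=
    Finset.sum_le_sum fun a _ => sq_split hs (Nat.cast_nonneg _) (mul_pos hN' hx0)
  rw [h1]
  refine h2.trans ?_
  rw [Finset.sum_add_distrib, Finset.sum_const, Finset.card_univ, nsmul_eq_mul,
    ← Finset.sum_div]
  have h3 := sum_pow (by omega : 1 ≤ s) ht H hH
  rw [← hNdef] at h3 ⊢
  have h4 : (∑ a : C, (dg H a : ℝ) ^ s) / (N * x) ^ (s - 2) ≤
      2 ^ s * (t + (s : ℝ) ^ s) * (N ^ 3 * x ^ 2) := by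
    rw [div_le_iff₀ (by positivity)]
    refine h3.trans (le_of_eq ?_)
    have e : N ^ 3 * x ^ 2 * (N * x) ^ (s - 2) = N ^ s := by
      calc N ^ 3 * x ^ 2 * (N * x) ^ (s - 2) = N * (N ^ 2 * N ^ (s - 2)) * (x ^ 2 * x ^ (s - 2)) := by
            rw [mul_pow]; ring
        _ = N * N ^ s * x ^ s := by
            rw [← pow_add, ← pow_add, show 2 + (s - 2) = s by omega]
        _ = N ^ s := by rw [hxs]; field_simp
    rw [mul_assoc, mul_assoc, mul_assoc, e]
  have h5 : N ^ (3 : ℝ) = N ^ 3 := by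
    rw [← Real.rpow_natCast]; norm_num
  rw [h5]
  unfold KB
  calc N * (N * x) ^ 2 + (∑ a : C, (dg H a : ℝ) ^ s) / (N * x) ^ (s - 2)
      ≤ N * (N * x) ^ 2 + 2 ^ s * (t + (s : ℝ) ^ s) * (N ^ 3 * x ^ 2) := by linarith
    _ = (1 + 2 ^ s * (t + (s : ℝ) ^ s)) * N ^ 3 * x ^ 2 := by ring

end Pool.Agent.H94.RR
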