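import Pool.Agent.H94.RR.Rounds
import Pool.Agent.H94.RR.Kst

set_option autoImplicit false

namespace Pool.Agent.H94.RR

open Finset SimpleGraph
open scoped Classical

/-- every finite graph of maximum degree at most `D` is the union of `K` subgraphs without
`K_{s,t}` -/
def Cov (s t D K : ℕ) : Prop :=
  ∀ (V : Type) [Fintype V] (G : SimpleGraph V), (∀ v, (univ.filter fun w => G.Adj v w).card ≤ D) →
    ∃ A : Fin K → SimpleGraph V, (∀ j, A j ≤ G) ∧ (∀ j, Fr s t (A j)) ∧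
      ∀ u v, G.Adj u v → ∃ j, (A j).Adj u v

theorem cov_zero (s t : ℕ) : Cov s t 0 0 := by
  intro V _ G hG
  refine ⟨fun j => j.elim0, fun j => j.elim0, fun j => j.elim0, fun u v huv => ?_⟩
  exfalso
  have h := hG u
  rw [Nat.le_zero, Finset.card_eq_zero] at h
  have : v ∈ univ.filter fun w => G.Adj u w := Finset.mem_filter.2 ⟨Finset.mem_univ _, huv⟩
  rw [h] at this
  exact absurd this (Finset.notMem_empty v)

theorem cov_step {s t : ℕ} (hs : 1 ≤ s) (ht : 1 ≤ t) {C : Type} [Fintype C] (H : SimpleGraph C)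
    (hH : Fr s t H) (D k m τ K : ℕ) (q : ℝ) (hN : 0 < Fintype.card C) (hq0 : 0 ≤ q)
    (hq : 1 - k * (M1 H / (Fintype.card C : ℝ) ^ 2 * (1 - 2 * D / (Fintype.card C : ℝ))) +
      (k : ℝ) ^ 2 / 2 * (M2 H / (Fintype.card C : ℝ) ^ 3) ≤ q) (hkm : k ≤ m) (hm : 1 ≤ m)
    (hL : 4 * ((D.choose k : ℝ) / m.choose k * q ^ τ) * ((D + 1) ^ 4 : ℕ) ≤ 1)
    (hK : Cov s t (m - 1) K) : Cov s t D (τ + K) := by
  intro V _ G hG
  obtain ⟨A, hA1, hA2, hA3⟩ := rounds hs ht G H hH D k m τ q hG hN hq0 hq hkm hL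
  set L : SimpleGraph V :=
    { Adj := fun u v => G.Adj u v ∧ ∀ j, ¬ (A j).Adj u v
      symm := ⟨fun u v h => ⟨h.1.symm, fun j hj => h.2 j hj.symm⟩⟩
      loopless := ⟨fun u h => G.loopless.irrefl u h.1⟩ } with hLdef
  obtain ⟨B, hB1, hB2, hB3⟩ := hK V L fun v => by
    refine le_trans (le_of_eq ?_) (Nat.le_sub_one_of_lt (hA3 v))
    congr 1
    ext w
    simp [hLdef]
  have hLG : L ≤ G := fun u v h => h.1
  refine ⟨Fin.append A B, fun j => ?_, fun j => ?_, fun u v huv => ?_⟩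
  · refine Fin.addCases (fun i => ?_) (fun i => ?_) j
    · rw [Fin.append_left]; exact hA1 i
    · rw [Fin.append_right]; exact (hB1 i).trans hLG
  · refine Fin.addCases (fun i => ?_) (fun i => ?_) j
    · rw [Fin.append_left]; exact hA2 i
    · rw [Fin.append_right]; exact hB2 i
  · by_cases h : ∃ j, (A j).Adj u v
    · obtain ⟨j, hj⟩ := h
      exact ⟨Fin.castAdd K j, by rw [Fin.append_left]; exact hj⟩
    · push Not at h
      obtain ⟨j, hj⟩ := hB3 u v ⟨huv, h⟩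
      exact ⟨Fin.natAdd τ j, by rw [Fin.append_right]; exact hj⟩

/-- `N ^ (-1 / s)` -/
noncomputable def xx (s N : ℕ) : ℝ := (N : ℝ) ^ (-(1 : ℝ) / s)

theorem xx_pos {s N : ℕ} (hN : 0 < N) : 0 < xx s N :=
  Real.rpow_pos_of_pos (Nat.cast_pos.2 hN) _

/-- there are dense graphs without `K_{s,t}` on all large sets of vertices -/
def Dense (s t : ℕ) (c : ℝ) (n₀ : ℕ) : Prop :=
  ∀ N : ℕ, n₀ ≤ N → ∃ H : SimpleGraph (Fin N), Fr s t H ∧ 2 * c * ((N : ℝ) ^ 2 * xx s N) ≤ M1 H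

theorem prob {s t : ℕ} (hs : 2 ≤ s) (ht : 1 ≤ t) {N : ℕ} (H : SimpleGraph (Fin N))
    (hH : Fr s t H) (c : ℝ) (hc : 0 < c) (hM : 2 * c * ((N : ℝ) ^ 2 * xx s N) ≤ M1 H) (D k : ℕ)
    (hN : 0 < N) (hD : 4 * D ≤ N) (hk : k * KB s t * xx s N ≤ c) :
    1 - k * (M1 H / (Fintype.card (Fin N) : ℝ) ^ 2 * (1 - 2 * D / (Fintype.card (Fin N) : ℝ))) +
      (k : ℝ) ^ 2 / 2 * (M2 H / (Fintype.card (Fin N) : ℝ) ^ 3) ≤
      Real.exp (-(k * c * xx s N / 2)) := by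
  have hN' : (0 : ℝ) < N := Nat.cast_pos.2 hN
  have hM2 := M2_le hs ht H hH (by rw [Fintype.card_fin]; exact hN)
  rw [Fintype.card_fin] at hM2 ⊢
  have hx : 0 < xx s N := xx_pos hN
  have e3 : (N : ℝ) ^ (3 : ℝ) = (N : ℝ) ^ 3 := by
    rw [← Real.rpow_natCast]; norm_num
  rw [e3] at hM2
  change M2 H ≤ KB s t * (N : ℝ) ^ 3 * (xx s N) ^ 2 at hM2
  have h1 : 2 * c * xx s N ≤ M1 H / (N : ℝ) ^ 2 := by
    rw [le_div_iff₀ (by positivity)]
    linarith
  have h2 : M2 H / (N : ℝ) ^ 3 ≤ KB s t * (xx s N) ^ 2 := by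
    rw [div_le_iff₀ (by positivity)]
    linarith
  have h3 : (1 : ℝ) / 2 ≤ 1 - 2 * D / N := by
    have : 2 * (D : ℝ) / N ≤ 1 / 2 := by
      rw [div_le_iff₀ hN']
      have : (4 * D : ℝ) ≤ N := by exact_mod_cast hD
      linarith
    linarith
  have h4 : c * xx s N ≤ M1 H / (N : ℝ) ^ 2 * (1 - 2 * D / N) := by
    have := mul_le_mul h1 h3 (by norm_num) (le_trans (by positivity) h1)
    linarith
  have hk0 : (0 : ℝ) ≤ k := Nat.cast_nonneg _
  have h5 : (k : ℝ) * (c * xx s N) ≤ k * (M1 H / (N : ℝ) ^ 2 * (1 - 2 * D / N)) :=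
    mul_le_mul_of_nonneg_left h4 hk0
  have h6 : (k : ℝ) ^ 2 / 2 * (M2 H / (N : ℝ) ^ 3) ≤ k / 2 * (c * xx s N) := by
    calc (k : ℝ) ^ 2 / 2 * (M2 H / (N : ℝ) ^ 3) ≤ (k : ℝ) ^ 2 / 2 * (KB s t * (xx s N) ^ 2) :=
          mul_le_mul_of_nonneg_left h2 (by positivity)
      _ = (k / 2 * xx s N) * (k * KB s t * xx s N) := by ring
      _ ≤ (k / 2 * xx s N) * c := mul_le_mul_of_nonneg_left hk (by positivity)
      _ = k / 2 * (c * xx s N) := by ring
  have h7 := Real.add_one_le_exp (-(k * c * xx s N / 2))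
  linarith

theorem choose_ratio (D k : ℕ) (h : 3 * k ≤ D) : D.choose k ≤ 4 ^ k * (D / 2 + 1).choose k := by
  have h1 : ∀ i, 3 * i ≤ D → D.descFactorial i ≤ 4 ^ i * (D / 2 + 1).descFactorial i := by
    intro i
    induction i with
    | zero => intro _; simp
    | succ i ih =>
      intro hi
      rw [Nat.descFactorial_succ, Nat.descFactorial_succ, pow_succ]
      have h2 : D - i ≤ 4 * (D / 2 + 1 - i) := by omega
      calc (D - i) * D.descFactorial i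
          ≤ (4 * (D / 2 + 1 - i)) * (4 ^ i * (D / 2 + 1).descFactorial i) :=
            Nat.mul_le_mul h2 (ih (by omega))
        _ = 4 ^ i * 4 * ((D / 2 + 1 - i) * (D / 2 + 1).descFactorial i) := by ring
  have h2 := h1 k h
  rw [Nat.descFactorial_eq_factorial_mul_choose, Nat.descFactorial_eq_factorial_mul_choose] at h2
  refine le_of_mul_le_mul_left ?_ (Nat.factorial_pos k)
  calc k.factorial * D.choose k ≤ 4 ^ k * (k.factorial * (D / 2 + 1).choose k) := h2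
    _ = k.factorial * (4 ^ k * (D / 2 + 1).choose k) := by ring

/-- the conditions on `D` -/
theorem ev_log {s : ℕ} (hs : 1 ≤ s) (δ : ℝ) (hδ : 0 < δ) :
    ∃ D₀ : ℕ, ∀ D : ℕ, D₀ ≤ D → 4 * Real.log (D + 1) + 3 ≤ δ * ((D : ℝ) + 1) ^ (1 / (s : ℝ)) := by
  have hs' : (0 : ℝ) < 1 / s := by positivity
  have h1 := (isLittleO_log_rpow_atTop hs').bound (show 0 < δ / 8 by positivity)
  have h2 : ∀ᶠ y : ℝ in Filter.atTop, 6 / δ ≤ y ^ (1 / (s : ℝ)) :=
    (tendsto_rpow_atTop hs').eventually_ge_atTop _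
  have h3 : ∀ᶠ y : ℝ in Filter.atTop, 4 * Real.log y + 3 ≤ δ * y ^ (1 / (s : ℝ)) := by
    filter_upwards [h1, h2, Filter.eventually_gt_atTop 0] with y hy1 hy2 hy0
    have h4 : Real.log y ≤ δ / 8 * y ^ (1 / (s : ℝ)) := by
      refine (le_abs_self _).trans ?_
      rw [Real.norm_eq_abs, Real.norm_eq_abs, abs_of_pos (Real.rpow_pos_of_pos hy0 _)] at hy1
      exact hy1
    have h5 : 6 ≤ δ * y ^ (1 / (s : ℝ)) := by
      rw [div_le_iff₀ hδ] at hy2
      linarith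
    linarith
  obtain ⟨y₀, hy₀⟩ := Filter.eventually_atTop.1 h3
  refine ⟨⌈y₀⌉₊, fun D hD => hy₀ _ ?_⟩
  have : y₀ ≤ D := (Nat.le_ceil y₀).trans (by exact_mod_cast hD)
  linarith

theorem step_large {s t : ℕ} (hs : 2 ≤ s) (ht : 1 ≤ t) (c : ℝ) (hc : 0 < c) (n₀ : ℕ)
    (hH : Dense s t c n₀) :
    ∃ A : ℝ, 0 ≤ A ∧ ∃ D₀ : ℕ, ∀ D, D₀ ≤ D → ∃ τ : ℕ, (τ : ℝ) ≤ A * (D : ℝ) ^ (1 / (s : ℝ)) ∧
      ∀ K, Cov s t (D / 2) K → Cov s t D (τ + K) := by
  have hKB := KB_pos s t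
  obtain ⟨D₁, hD₁⟩ := ev_log (s := s) (by omega) (min (c / KB s t) (1 / 6))
    (lt_min (div_pos hc hKB) (by norm_num))
  have hs' : (0 : ℝ) < s := by exact_mod_cast (by omega : 0 < s)
  have hl4 : 0 < Real.log 4 := Real.log_pos (by norm_num)
  refine ⟨8 * (Real.log 4 + 1) / c + 1, by positivity, max (max D₁ n₀) 1, fun D hD => ?_⟩
  have hDD : D₁ ≤ D := le_trans (le_trans (le_max_left _ _) (le_max_left _ _)) hD
  have hDn : n₀ ≤ D := le_trans (le_trans (le_max_right _ _) (le_max_left _ _)) hD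
  have hD1 : 1 ≤ D := le_trans (le_max_right _ _) hD
  have hDr : (1 : ℝ) ≤ D := by exact_mod_cast hD1
  have hlog := hD₁ D hDD
  set y : ℝ := (D : ℝ) + 1 with hy
  have hy1 : 1 ≤ y := by linarith
  have hy0 : 0 < y := by linarith
  set k : ℕ := ⌈4 * Real.log y⌉₊ + 2 with hk
  have hlogy : 0 ≤ Real.log y := Real.log_nonneg hy1
  have hk1 : (k : ℝ) ≤ 4 * Real.log y + 3 := by
    have := (Nat.ceil_lt_add_one (show 0 ≤ 4 * Real.log y by positivity)).le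
    rw [hk]; push_cast; linarith
  have hk2 : 4 * Real.log y + 2 ≤ (k : ℝ) := by
    have := Nat.le_ceil (4 * Real.log y)
    rw [hk]; push_cast; linarith
  have hyp : 0 < y ^ (1 / (s : ℝ)) := Real.rpow_pos_of_pos hy0 _
  have hypy : y ^ (1 / (s : ℝ)) ≤ y := by
    calc y ^ (1 / (s : ℝ)) ≤ y ^ (1 : ℝ) := by
          refine Real.rpow_le_rpow_of_exponent_le hy1 ?_
          rw [div_le_one hs']
          exact_mod_cast (by omega : 1 ≤ s)
      _ = y := Real.rpow_one y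
  have hk3 : (k : ℝ) ≤ 1 / 6 * y := by
    calc (k : ℝ) ≤ min (c / KB s t) (1 / 6) * y ^ (1 / (s : ℝ)) := hk1.trans hlog
      _ ≤ 1 / 6 * y ^ (1 / (s : ℝ)) := mul_le_mul_of_nonneg_right (min_le_right _ _) hyp.le
      _ ≤ 1 / 6 * y := by linarith
  have hk3D : 3 * k ≤ D := by
    have : (3 * k : ℝ) ≤ D := by linarith
    exact_mod_cast this
  have hk4 : (k : ℝ) * KB s t ≤ c * y ^ (1 / (s : ℝ)) := by
    have : (k : ℝ) ≤ c / KB s t * y ^ (1 / (s : ℝ)) :=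
      (hk1.trans hlog).trans (mul_le_mul_of_nonneg_right (min_le_left _ _) hyp.le)
    calc (k : ℝ) * KB s t ≤ c / KB s t * y ^ (1 / (s : ℝ)) * KB s t :=
          mul_le_mul_of_nonneg_right this hKB.le
      _ = c * y ^ (1 / (s : ℝ)) := by field_simp
  have hN : 0 < 4 * D := by omega
  obtain ⟨H, hHf, hHM⟩ := hH (4 * D) (by omega)
  have hx := xx_pos (s := s) hN
  have hxinv : (xx s (4 * D))⁻¹ = ((4 * D : ℕ) : ℝ) ^ (1 / (s : ℝ)) := by
    unfold xx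
    rw [← Real.rpow_neg (Nat.cast_nonneg _)]
    congr 1
    ring
  have hyN : y ^ (1 / (s : ℝ)) ≤ (xx s (4 * D))⁻¹ := by
    rw [hxinv]
    refine Real.rpow_le_rpow hy0.le ?_ (by positivity)
    push_cast
    linarith
  have hk5 : (k : ℝ) * KB s t * xx s (4 * D) ≤ c := by
    have : (k : ℝ) * KB s t ≤ c * (xx s (4 * D))⁻¹ :=
      hk4.trans (mul_le_mul_of_nonneg_left hyN hc.le)
    calc (k : ℝ) * KB s t * xx s (4 * D) ≤ c * (xx s (4 * D))⁻¹ * xx s (4 * D) :=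
          mul_le_mul_of_nonneg_right this hx.le
      _ = c := by field_simp
  set x := xx s (4 * D) with hxdef
  set τ : ℕ := ⌈2 * (Real.log 4 + 1) / (c * x)⌉₊ with hτ
  have hτ1 : Real.log 4 + 1 ≤ c * x * τ / 2 := by
    have := Nat.le_ceil (2 * (Real.log 4 + 1) / (c * x))
    rw [div_le_iff₀ (by positivity)] at this
    rw [← hτ] at this
    linarith
  have hτ2 : (τ : ℝ) ≤ (8 * (Real.log 4 + 1) / c + 1) * (D : ℝ) ^ (1 / (s : ℝ)) := by
    have h1 : (τ : ℝ) ≤ 2 * (Real.log 4 + 1) / (c * x) + 1 :=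
      (Nat.ceil_lt_add_one (by positivity)).le
    have h2 : x⁻¹ ≤ 4 * (D : ℝ) ^ (1 / (s : ℝ)) := by
      rw [hxinv]
      push_cast
      rw [Real.mul_rpow (by norm_num) (by positivity)]
      refine mul_le_mul_of_nonneg_right ?_ (by positivity)
      calc (4 : ℝ) ^ (1 / (s : ℝ)) ≤ (4 : ℝ) ^ (1 : ℝ) := by
            refine Real.rpow_le_rpow_of_exponent_le (by norm_num) ?_
            rw [div_le_one hs']
            exact_mod_cast (by omega : 1 ≤ s)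
        _ = 4 := Real.rpow_one 4
    have h3 : (1 : ℝ) ≤ (D : ℝ) ^ (1 / (s : ℝ)) := Real.one_le_rpow hDr (by positivity)
    calc (τ : ℝ) ≤ 2 * (Real.log 4 + 1) / (c * x) + 1 := h1
      _ = 2 * (Real.log 4 + 1) / c * x⁻¹ + 1 := by field_simp
      _ ≤ 2 * (Real.log 4 + 1) / c * (4 * (D : ℝ) ^ (1 / (s : ℝ))) + (D : ℝ) ^ (1 / (s : ℝ)) :=
          add_le_add (mul_le_mul_of_nonneg_left h2 (by positivity)) h3
      _ = (8 * (Real.log 4 + 1) / c + 1) * (D : ℝ) ^ (1 / (s : ℝ)) := by ring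
  refine ⟨τ, hτ2, fun K hK => ?_⟩
  have hkm : k ≤ D / 2 + 1 := by omega
  refine cov_step (by omega) ht H hHf D k (D / 2 + 1) τ K (Real.exp (-(k * c * x / 2)))
    (by rw [Fintype.card_fin]; exact hN) (Real.exp_pos _).le
    (prob hs ht H hHf c hc hHM D k hN le_rfl hk5) hkm (by omega) ?_ hK
  have hmk : (0 : ℝ) < (D / 2 + 1).choose k := by exact_mod_cast Nat.choose_pos hkm
  have h1 : (D.choose k : ℝ) / (D / 2 + 1).choose k ≤ 4 ^ k := by
    rw [div_le_iff₀ hmk]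
    exact_mod_cast choose_ratio D k hk3D
  have h2 : Real.exp (-(k * c * x / 2)) ^ τ ≤ Real.exp (-(k * (Real.log 4 + 1))) := by
    rw [← Real.exp_nat_mul]
    refine Real.exp_le_exp.2 ?_
    have : (k : ℝ) * (Real.log 4 + 1) ≤ k * (c * x * τ / 2) :=
      mul_le_mul_of_nonneg_left hτ1 (Nat.cast_nonneg _)
    linarith
  have h3 : (4 : ℝ) ^ k * Real.exp (-(k * (Real.log 4 + 1))) = Real.exp (-k) := by
    have : (4 : ℝ) ^ k = Real.exp (k * Real.log 4) := by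
      rw [Real.exp_nat_mul, Real.exp_log (by norm_num)]
    rw [this, ← Real.exp_add]
    congr 1
    ring
  have h4 : (D.choose k : ℝ) / (D / 2 + 1).choose k * Real.exp (-(k * c * x / 2)) ^ τ ≤
      Real.exp (-k) := by
    rw [← h3]
    exact mul_le_mul h1 h2 (by positivity) (by positivity)
  have h5 : Real.exp (-(k : ℝ)) ≤ (y ^ 4)⁻¹ * Real.exp (-2) := by
    have e : (y ^ 4)⁻¹ * Real.exp (-2) = Real.exp (-(4 * Real.log y + 2)) := by
      rw [show -(4 * Real.log y + 2) = -(4 * Real.log y) + -2 by ring, Real.exp_add,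
        Real.exp_neg (4 * Real.log y)]
      congr 2
      rw [show (4 : ℝ) * Real.log y = ((4 : ℕ) : ℝ) * Real.log y by norm_num, Real.exp_nat_mul,
        Real.exp_log hy0]
    rw [e]
    exact Real.exp_le_exp.2 (by linarith)
  have h6 : 4 * Real.exp (-2) ≤ 1 := by
    rw [Real.exp_neg, mul_inv_le_iff₀ (Real.exp_pos _), one_mul]
    have h7 := Real.exp_one_gt_d9
    have h8 : Real.exp 2 = Real.exp 1 * Real.exp 1 := by rw [← Real.exp_add]; norm_num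
    rw [h8]
    nlinarith
  have h9 : (((D + 1) ^ 4 : ℕ) : ℝ) = y ^ 4 := by rw [hy]; push_cast; ring
  rw [h9]
  calc 4 * ((D.choose k : ℝ) / (D / 2 + 1).choose k * Real.exp (-(k * c * x / 2)) ^ τ) * y ^ 4
      ≤ 4 * ((y ^ 4)⁻¹ * Real.exp (-2)) * y ^ 4 := by
        refine mul_le_mul_of_nonneg_right ?_ (by positivity)
        exact mul_le_mul_of_nonneg_left (h4.trans h5) (by norm_num)
    _ = 4 * Real.exp (-2) := by field_simp
    _ ≤ 1 := h6

theorem base {s t : ℕ} (hs : 2 ≤ s) (ht : 1 ≤ t) (c : ℝ) (hc : 0 < c) (n₀ : ℕ)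
    (hH : Dense s t c n₀) (D : ℕ) : ∃ K, Cov s t D K := by
  have hKB := KB_pos s t
  have hs' : (0 : ℝ) < 1 / s := by positivity
  have h1 : ∀ᶠ y : ℝ in Filter.atTop, KB s t / c ≤ y ^ (1 / (s : ℝ)) :=
    (tendsto_rpow_atTop hs').eventually_ge_atTop _
  obtain ⟨y₀, hy₀⟩ := Filter.eventually_atTop.1 h1
  set N : ℕ := max (max n₀ (4 * D)) (max ⌈y₀⌉₊ 1) with hNdef
  have hN : 0 < N := lt_of_lt_of_le one_pos (le_trans (le_max_right _ _) (le_max_right _ _))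
  have hNn : n₀ ≤ N := le_trans (le_max_left _ _) (le_max_left _ _)
  have hND : 4 * D ≤ N := le_trans (le_max_right _ _) (le_max_left _ _)
  have hNy : y₀ ≤ N := by
    refine (Nat.le_ceil y₀).trans ?_
    exact_mod_cast le_trans (le_max_left _ _) (le_max_right _ _)
  obtain ⟨H, hHf, hHM⟩ := hH N hNn
  have hx := xx_pos (s := s) hN
  have hxinv : (xx s N)⁻¹ = (N : ℝ) ^ (1 / (s : ℝ)) := by
    unfold xx
    rw [← Real.rpow_neg (Nat.cast_nonneg _)]
    congr 1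
    ring
  have hk : ((1 : ℕ) : ℝ) * KB s t * xx s N ≤ c := by
    have h2 := hy₀ N hNy
    rw [← hxinv, div_le_iff₀ hc] at h2
    rw [Nat.cast_one, one_mul]
    calc KB s t * xx s N ≤ (xx s N)⁻¹ * c * xx s N := mul_le_mul_of_nonneg_right h2 hx.le
      _ = c := by field_simp
  have hq1 : Real.exp (-(((1 : ℕ) : ℝ) * c * xx s N / 2)) < 1 := by
    rw [Real.exp_lt_one_iff]
    simp only [Nat.cast_one, one_mul]
    linarith [mul_pos hc hx]
  have hpos : 0 < 1 / (4 * ((D.choose 1 : ℝ) / (1 : ℕ).choose 1 + 1) * ((D + 1) ^ 4 : ℕ)) := by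
    positivity
  obtain ⟨τ, hτ⟩ := exists_pow_lt_of_lt_one hpos hq1
  refine ⟨τ + 0, cov_step (by omega) ht H hHf D 1 1 τ 0
    (Real.exp (-(((1 : ℕ) : ℝ) * c * xx s N / 2)))
    (by rw [Fintype.card_fin]; exact hN) (Real.exp_pos _).le
    (prob hs ht H hHf c hc hHM D 1 hN hND hk) le_rfl le_rfl ?_ (cov_zero s t)⟩
  rw [lt_div_iff₀ (by positivity)] at hτ
  have h3 : 0 ≤ Real.exp (-(((1 : ℕ) : ℝ) * c * xx s N / 2)) ^ τ := by positivity
  have h4 : 0 ≤ (((D + 1) ^ 4 : ℕ) : ℝ) := Nat.cast_nonneg _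
  nlinarith [mul_nonneg h3 h4]

/-- the main direction -/
theorem main {s t : ℕ} (hs : 2 ≤ s) (ht : 1 ≤ t) (c : ℝ) (hc : 0 < c) (n₀ : ℕ)
    (hH : Dense s t c n₀) :
    ∃ A : ℝ, 0 < A ∧ ∀ D : ℕ, 1 ≤ D → ∃ K : ℕ, (K : ℝ) ≤ A * (D : ℝ) ^ (1 / (s : ℝ)) ∧
      Cov s t D K := by
  obtain ⟨A, hA, D₀, hstep⟩ := step_large hs ht c hc n₀ hH
  choose K hK using base hs ht c hc n₀ hH
  have hs' : (0 : ℝ) < s := by exact_mod_cast (by omega : 0 < s)
  set ρ : ℝ := (1 / 2 : ℝ) ^ (1 / (s : ℝ)) with hρ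
  have hρ0 : 0 < ρ := by positivity
  have hρ1 : ρ < 1 := Real.rpow_lt_one (by norm_num) (by norm_num) (by positivity)
  set B : ℝ := ∑ i ∈ range (D₀ + 2), (K i : ℝ) with hB
  have hB0 : 0 ≤ B := Finset.sum_nonneg fun _ _ => Nat.cast_nonneg _
  set A' : ℝ := A / (1 - ρ) + B + 1 with hA'
  have h1ρ : 0 < 1 - ρ := by linarith
  have hA'0 : 0 < A' := by positivity
  refine ⟨A', hA'0, fun D => ?_⟩
  induction D using Nat.strong_induction_on with
  | _ D ih =>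
    intro hD1
    have hDr : (1 : ℝ) ≤ D := by exact_mod_cast hD1
    have hDs : (1 : ℝ) ≤ (D : ℝ) ^ (1 / (s : ℝ)) := Real.one_le_rpow hDr (by positivity)
    rcases lt_or_ge D (D₀ + 2) with h | h
    · refine ⟨K D, ?_, hK D⟩
      have h1 : (K D : ℝ) ≤ B := Finset.single_le_sum (f := fun i => (K i : ℝ))
        (fun i _ => Nat.cast_nonneg _) (Finset.mem_range.2 h)
      have h2 : B ≤ A' := by
        rw [hA']
        have : 0 ≤ A / (1 - ρ) := by positivity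
        linarith
      calc (K D : ℝ) ≤ A' * 1 := by linarith
        _ ≤ A' * (D : ℝ) ^ (1 / (s : ℝ)) := mul_le_mul_of_nonneg_left hDs hA'0.le
    · obtain ⟨τ, hτ, hc2⟩ := hstep D (by omega)
      obtain ⟨K', hK', hcov⟩ := ih (D / 2) (by omega) (by omega)
      refine ⟨τ + K', ?_, hc2 K' hcov⟩
      have h1 : ((D / 2 : ℕ) : ℝ) ^ (1 / (s : ℝ)) ≤ ρ * (D : ℝ) ^ (1 / (s : ℝ)) := by
        rw [hρ, ← Real.mul_rpow (by norm_num) (by positivity)]
        refine Real.rpow_le_rpow (Nat.cast_nonneg _) ?_ (by positivity)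
        have : ((D / 2 : ℕ) : ℝ) ≤ (D : ℝ) / 2 := Nat.cast_div_le
        linarith
      have h2 : A + A' * ρ ≤ A' := by
        have : A ≤ A' * (1 - ρ) := by
          rw [hA', add_mul, add_mul, div_mul_cancel₀ _ h1ρ.ne']
          have : 0 ≤ B * (1 - ρ) := by positivity
          linarith
        linarith
      push_cast
      calc (τ : ℝ) + K' ≤ A * (D : ℝ) ^ (1 / (s : ℝ)) + A' * (ρ * (D : ℝ) ^ (1 / (s : ℝ))) :=
            add_le_add hτ (hK'.trans (mul_le_mul_of_nonneg_left h1 hA'0.le))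
        _ = (A + A' * ρ) * (D : ℝ) ^ (1 / (s : ℝ)) := by ring
        _ ≤ A' * (D : ℝ) ^ (1 / (s : ℝ)) := mul_le_mul_of_nonneg_right h2 (by positivity)

end Pool.Agent.H94.RR
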