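import Pool.Agent.H94.RR.Base

set_option autoImplicit false

namespace Pool.Agent.H94.RR

open Finset SimpleGraph
open scoped Classical

variable {V C : Type} [Fintype V] [Fintype C]

/-- the indicator of a proposition -/
noncomputable def ind (p : Prop) : ℝ := if p then 1 else 0

theorem ind_nonneg (p : Prop) : 0 ≤ ind p := by unfold ind; split_ifs <;> norm_num

theorem ind_le_one (p : Prop) : ind p ≤ 1 := by unfold ind; split_ifs <;> norm_num

theorem ind_true {p : Prop} (h : p) : ind p = 1 := if_pos h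

theorem ind_false {p : Prop} (h : ¬ p) : ind p = 0 := if_neg h

theorem ind_mono {p q : Prop} (h : p → q) : ind p ≤ ind q := by
  by_cases hp : p
  · rw [ind_true hp, ind_true (h hp)]
  · rw [ind_false hp]; exact ind_nonneg q

/-- number of ordered pairs of adjacent vertices -/
noncomputable def M1 (H : SimpleGraph C) : ℝ := ∑ a : C, ∑ b : C, ind (H.Adj a b)

/-- sum of the squares of the degrees -/
noncomputable def M2 (H : SimpleGraph C) : ℝ := ∑ a : C, (∑ b : C, ind (H.Adj a b)) ^ 2

theorem M1_nonneg (H : SimpleGraph C) : 0 ≤ M1 H :=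
  Finset.sum_nonneg fun _ _ => Finset.sum_nonneg fun _ _ => ind_nonneg _

theorem M2_nonneg (H : SimpleGraph C) : 0 ≤ M2 H :=
  Finset.sum_nonneg fun _ _ => sq_nonneg _

theorem sum_edge (H : SimpleGraph C) {v w : V} (h : v ≠ w) :
    (Fintype.card C : ℝ) ^ 2 * ∑ f : V → C, ind (H.Adj (f v) (f w)) =
      (Fintype.card (V → C) : ℝ) * M1 H :=
  sum_two (fun a b => ind (H.Adj a b)) h

theorem sum_clash (H : SimpleGraph C) {v w u : V} (h : v ≠ w) (h' : v ≠ u) (h'' : w ≠ u) :
    (Fintype.card C : ℝ) ^ 3 * ∑ f : V → C, ind (H.Adj (f v) (f w)) * ind (f u = f w) =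
      (Fintype.card (V → C) : ℝ) * M1 H := by
  rw [sum_three (fun a b c => ind (H.Adj a b) * ind (c = b)) h h' h'']
  unfold M1
  congr 1
  refine Finset.sum_congr rfl fun a _ => Finset.sum_congr rfl fun b _ => ?_
  rw [← Finset.mul_sum]
  have : ∑ i : C, ind (i = b) = 1 := by
    unfold ind
    simp
  rw [this, mul_one]

theorem sum_cherry (H : SimpleGraph C) {v w u : V} (h : v ≠ w) (h' : v ≠ u) (h'' : w ≠ u) :
    (Fintype.card C : ℝ) ^ 3 *
      ∑ f : V → C, ind (H.Adj (f v) (f w)) * ind (H.Adj (f v) (f u)) =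
      (Fintype.card (V → C) : ℝ) * M2 H := by
  rw [sum_three (fun a b c => ind (H.Adj a b) * ind (H.Adj a c)) h h' h'']
  unfold M2
  congr 1
  refine Finset.sum_congr rfl fun a _ => ?_
  rw [sq, Finset.sum_mul_sum]

/-- a good neighbour is kept with the expected probability -/
theorem sum_kept (G : SimpleGraph V) (H : SimpleGraph C) (D : ℕ)
    (hD : ∀ v, (univ.filter fun w => G.Adj v w).card ≤ D) {v w : V} (hvw : G.Adj v w)
    (hN : 0 < Fintype.card C) :
    (Fintype.card (V → C) : ℝ) * (M1 H / (Fintype.card C : ℝ) ^ 2 *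
      (1 - 2 * D / (Fintype.card C : ℝ))) ≤ ∑ f : V → C, ind ((kept G H f).Adj v w) := by
  have hN' : (0 : ℝ) < Fintype.card C := by exact_mod_cast hN
  set N : ℝ := (Fintype.card C : ℝ) with hNdef
  set Om : ℝ := (Fintype.card (V → C) : ℝ) with hOm
  have hOm0 : 0 ≤ Om := Nat.cast_nonneg _
  have hne : v ≠ w := hvw.ne
  set A := (univ.filter fun u => G.Adj v u).erase w with hA
  set B := (univ.filter fun u => G.Adj w u).erase v with hB
  have hAc : (A.card : ℝ) ≤ D := by
    exact_mod_cast (Finset.card_erase_le.trans (hD v))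
  have hBc : (B.card : ℝ) ≤ D := by
    exact_mod_cast (Finset.card_erase_le.trans (hD w))
  have hpt : ∀ f : V → C, ind (H.Adj (f v) (f w)) -
      ∑ u ∈ A, ind (H.Adj (f v) (f w)) * ind (f u = f w) -
      ∑ u ∈ B, ind (H.Adj (f w) (f v)) * ind (f u = f v) ≤ ind ((kept G H f).Adj v w) := by
    intro f
    have hA0 : 0 ≤ ∑ u ∈ A, ind (H.Adj (f v) (f w)) * ind (f u = f w) :=
      Finset.sum_nonneg fun u _ => mul_nonneg (ind_nonneg _) (ind_nonneg _)
    have hB0 : 0 ≤ ∑ u ∈ B, ind (H.Adj (f w) (f v)) * ind (f u = f v) :=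
      Finset.sum_nonneg fun u _ => mul_nonneg (ind_nonneg _) (ind_nonneg _)
    by_cases hk : (kept G H f).Adj v w
    · rw [ind_true hk]
      linarith [ind_le_one (H.Adj (f v) (f w))]
    · rw [ind_false hk]
      by_cases hH : H.Adj (f v) (f w)
      · have hex : (∃ u ∈ A, f u = f w) ∨ ∃ u ∈ B, f u = f v := by
          by_contra hno
          push Not at hno
          refine hk ⟨hvw, hH, fun u hu hne' => hno.1 u ?_, fun u hu hne' => hno.2 u ?_⟩
          · rw [hA, Finset.mem_erase, Finset.mem_filter]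
            exact ⟨hne', Finset.mem_univ _, hu⟩
          · rw [hB, Finset.mem_erase, Finset.mem_filter]
            exact ⟨hne', Finset.mem_univ _, hu⟩
        rcases hex with ⟨u, hu, he⟩ | ⟨u, hu, he⟩
        · have h1 : (1 : ℝ) ≤ ∑ u ∈ A, ind (H.Adj (f v) (f w)) * ind (f u = f w) := by
            have := Finset.single_le_sum (f := fun u => ind (H.Adj (f v) (f w)) * ind (f u = f w))
              (fun i _ => mul_nonneg (ind_nonneg _) (ind_nonneg _)) hu
            refine le_trans (le_of_eq ?_) this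
            rw [ind_true hH, ind_true he, one_mul]
          have hi : ind (H.Adj (f v) (f w)) = 1 := ind_true hH
          linarith
        · have h1 : (1 : ℝ) ≤ ∑ u ∈ B, ind (H.Adj (f w) (f v)) * ind (f u = f v) := by
            have := Finset.single_le_sum (f := fun u => ind (H.Adj (f w) (f v)) * ind (f u = f v))
              (fun i _ => mul_nonneg (ind_nonneg _) (ind_nonneg _)) hu
            refine le_trans (le_of_eq ?_) this
            rw [ind_true hH.symm, ind_true he, one_mul]
          have hi : ind (H.Adj (f v) (f w)) = 1 := ind_true hH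
          linarith
      · have hi : ind (H.Adj (f v) (f w)) = 0 := ind_false hH
        linarith
  have hsum := Finset.sum_le_sum fun (f : V → C) (_ : f ∈ univ) => hpt f
  rw [Finset.sum_sub_distrib, Finset.sum_sub_distrib] at hsum
  refine le_trans ?_ hsum
  have e1 : ∑ f : V → C, ind (H.Adj (f v) (f w)) = Om * M1 H / N ^ 2 := by
    have := sum_edge H hne
    rw [eq_div_iff (by positivity), mul_comm]
    exact this
  have e2 : ∑ f : V → C, ∑ u ∈ A, ind (H.Adj (f v) (f w)) * ind (f u = f w) =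
      A.card * (Om * M1 H / N ^ 3) := by
    rw [Finset.sum_comm, ← nsmul_eq_mul, ← Finset.sum_const]
    refine Finset.sum_congr rfl fun u hu => ?_
    rw [hA, Finset.mem_erase, Finset.mem_filter] at hu
    have := sum_clash H hne hu.2.2.ne hu.1.symm
    rw [eq_div_iff (by positivity), mul_comm]
    exact this
  have e3 : ∑ f : V → C, ∑ u ∈ B, ind (H.Adj (f w) (f v)) * ind (f u = f v) =
      B.card * (Om * M1 H / N ^ 3) := by
    rw [Finset.sum_comm, ← nsmul_eq_mul, ← Finset.sum_const]
    refine Finset.sum_congr rfl fun u hu => ?_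
    rw [hB, Finset.mem_erase, Finset.mem_filter] at hu
    have := sum_clash H hne.symm hu.2.2.ne hu.1.symm
    rw [eq_div_iff (by positivity), mul_comm]
    exact this
  rw [e1, e2, e3]
  have hX : 0 ≤ Om * M1 H / N ^ 3 := div_nonneg (mul_nonneg hOm0 (M1_nonneg H)) (by positivity)
  have h1 : (A.card : ℝ) * (Om * M1 H / N ^ 3) ≤ D * (Om * M1 H / N ^ 3) :=
    mul_le_mul_of_nonneg_right hAc hX
  have h2 : (B.card : ℝ) * (Om * M1 H / N ^ 3) ≤ D * (Om * M1 H / N ^ 3) :=
    mul_le_mul_of_nonneg_right hBc hX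
  have h3 : Om * (M1 H / N ^ 2 * (1 - 2 * D / N)) =
      Om * M1 H / N ^ 2 - D * (Om * M1 H / N ^ 3) - D * (Om * M1 H / N ^ 3) := by
    field_simp
    ring
  rw [h3]
  linarith

theorem sum_two_kept (G : SimpleGraph V) (H : SimpleGraph C) {v w u : V} (hw : G.Adj v w)
    (hu : G.Adj v u) (hwu : w ≠ u) (hN : 0 < Fintype.card C) :
    ∑ f : V → C, ind ((kept G H f).Adj v w) * ind ((kept G H f).Adj v u) ≤
      (Fintype.card (V → C) : ℝ) * (M2 H / (Fintype.card C : ℝ) ^ 3) := by
  have hN' : (0 : ℝ) < Fintype.card C := by exact_mod_cast hN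
  have h1 : ∑ f : V → C, ind ((kept G H f).Adj v w) * ind ((kept G H f).Adj v u) ≤
      ∑ f : V → C, ind (H.Adj (f v) (f w)) * ind (H.Adj (f v) (f u)) :=
    Finset.sum_le_sum fun f _ => mul_le_mul (ind_mono fun h => h.2.1) (ind_mono fun h => h.2.1)
      (ind_nonneg _) (ind_nonneg _)
  refine h1.trans (le_of_eq ?_)
  have := sum_cherry H hw.ne hu.ne hwu
  rw [← mul_div_assoc, eq_div_iff (by positivity), mul_comm]
  exact this

/-- the probability that no neighbour of `v` in `S` is kept -/
theorem sum_none (G : SimpleGraph V) (H : SimpleGraph C) (D : ℕ)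
    (hD : ∀ v, (univ.filter fun w => G.Adj v w).card ≤ D) (v : V) (S : Finset V)
    (hS : ∀ w ∈ S, G.Adj v w) (hN : 0 < Fintype.card C) :
    ∑ f : V → C, ind (∀ w ∈ S, ¬ (kept G H f).Adj v w) ≤
      (Fintype.card (V → C) : ℝ) * (1 - S.card * (M1 H / (Fintype.card C : ℝ) ^ 2 *
      (1 - 2 * D / (Fintype.card C : ℝ))) + (S.card : ℝ) ^ 2 / 2 *
        (M2 H / (Fintype.card C : ℝ) ^ 3)) := by
  have hpt : ∀ f : V → C, ind (∀ w ∈ S, ¬ (kept G H f).Adj v w) ≤
      1 - (∑ w ∈ S, ind ((kept G H f).Adj v w)) +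
        (1 / 2) * ∑ p ∈ S.offDiag, ind ((kept G H f).Adj v p.1) * ind ((kept G H f).Adj v p.2) := by
    intro f
    set T := S.filter fun w => (kept G H f).Adj v w with hT
    have h1 : ∑ w ∈ S, ind ((kept G H f).Adj v w) = T.card := by
      unfold ind
      rw [Finset.sum_ite, Finset.sum_const_zero, add_zero, Finset.sum_const, nsmul_eq_mul,
        mul_one]
    have h2 : ∑ p ∈ S.offDiag, ind ((kept G H f).Adj v p.1) * ind ((kept G H f).Adj v p.2) =
        (T.card : ℝ) * T.card - T.card := by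
      have h3 : ∑ p ∈ S.offDiag, ind ((kept G H f).Adj v p.1) * ind ((kept G H f).Adj v p.2) =
          ((S.offDiag.filter fun p => (kept G H f).Adj v p.1 ∧ (kept G H f).Adj v p.2).card : ℝ) := by
        rw [Finset.card_filter, Nat.cast_sum]
        refine Finset.sum_congr rfl fun p _ => ?_
        unfold ind
        by_cases ha : (kept G H f).Adj v p.1 <;> by_cases hb : (kept G H f).Adj v p.2 <;>
          simp [ha, hb]
      have h4 : (S.offDiag.filter fun p => (kept G H f).Adj v p.1 ∧ (kept G H f).Adj v p.2) =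
          T.offDiag := by
        ext p
        simp only [Finset.mem_filter, Finset.mem_offDiag, hT]
        tauto
      rw [h3, h4, Finset.offDiag_card, Nat.cast_sub (Nat.le_mul_self _), Nat.cast_mul]
    rw [h1, h2]
    by_cases hk : ∀ w ∈ S, ¬ (kept G H f).Adj v w
    · have hT0 : T.card = 0 := by
        rw [Finset.card_eq_zero, hT, Finset.filter_eq_empty_iff]
        exact fun {w} hw => hk w hw
      rw [ind_true hk, hT0]
      norm_num
    · rw [ind_false hk]
      have hT1 : 1 ≤ T.card := by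
        push Not at hk
        obtain ⟨w, hw, hw'⟩ := hk
        exact Finset.card_pos.2 ⟨w, Finset.mem_filter.2 ⟨hw, hw'⟩⟩
      rcases Nat.lt_or_ge T.card 2 with h | h
      · have : T.card = 1 := by omega
        rw [this]; norm_num
      · have h' : (2 : ℝ) ≤ T.card := by exact_mod_cast h
        nlinarith
  have hsum := Finset.sum_le_sum fun (f : V → C) (_ : f ∈ univ) => hpt f
  refine hsum.trans ?_
  rw [Finset.sum_add_distrib, Finset.sum_sub_distrib, Finset.sum_const, Finset.card_univ,
    nsmul_eq_mul, mul_one, ← Finset.mul_sum, Finset.sum_comm, Finset.sum_comm (s := univ)]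
  have h1 : (S.card : ℝ) * ((Fintype.card (V → C) : ℝ) * (M1 H / (Fintype.card C : ℝ) ^ 2 *
      (1 - 2 * D / (Fintype.card C : ℝ)))) ≤ ∑ w ∈ S, ∑ f : V → C, ind ((kept G H f).Adj v w) := by
    rw [← nsmul_eq_mul, ← Finset.sum_const]
    exact Finset.sum_le_sum fun w hw => sum_kept G H D hD (hS w hw) hN
  have h2 : ∑ p ∈ S.offDiag, ∑ f : V → C,
      ind ((kept G H f).Adj v p.1) * ind ((kept G H f).Adj v p.2) ≤
      (S.card : ℝ) ^ 2 * ((Fintype.card (V → C) : ℝ) * (M2 H / (Fintype.card C : ℝ) ^ 3)) := by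
    have h3 : ∑ p ∈ S.offDiag, ∑ f : V → C,
        ind ((kept G H f).Adj v p.1) * ind ((kept G H f).Adj v p.2) ≤
        ∑ p ∈ S.offDiag, ((Fintype.card (V → C) : ℝ) * (M2 H / (Fintype.card C : ℝ) ^ 3)) := by
      refine Finset.sum_le_sum fun p hp => ?_
      rw [Finset.mem_offDiag] at hp
      exact sum_two_kept G H (hS _ hp.1) (hS _ hp.2.1) hp.2.2 hN
    refine h3.trans ?_
    rw [Finset.sum_const, nsmul_eq_mul]
    refine mul_le_mul_of_nonneg_right ?_ ?_
    · rw [Finset.offDiag_card]
      have : S.card * S.card - S.card ≤ S.card ^ 2 := by rw [sq]; exact Nat.sub_le _ _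
      exact_mod_cast this
    · exact mul_nonneg (Nat.cast_nonneg _) (div_nonneg (M2_nonneg H) (by positivity))
  nlinarith

end Pool.Agent.H94.RR
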