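import Pool.Agent.H94.RR.Round
import Pool.Graph.R_seed8.Helper635.LLL

set_option autoImplicit false

namespace Pool.Agent.H94.RR

open Finset SimpleGraph
open scoped Classical
open Pool.Agent.Helper635.LLL

variable {V C : Type} [Fintype V] [Fintype C]

/-- number of outcomes of one round with the property `P` -/
theorem card_rounds (P : (V → C) → Prop) (τ : ℕ) :
    (univ.filter fun ω : V → Fin τ → C => ∀ j, P fun x => ω x j).card =
      (univ.filter fun f : V → C => P f).card ^ τ := by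
  have h1 : (univ.filter fun ω : V → Fin τ → C => ∀ j, P fun x => ω x j).card =
      (Fintype.piFinset fun _ : Fin τ => univ.filter fun f : V → C => P f).card := by
    refine Finset.card_equiv (Equiv.piComm fun _ _ => C) fun ω => ?_
    simp only [Finset.mem_filter, Finset.mem_univ, true_and, Fintype.mem_piFinset]
    exact Iff.rfl
  rw [h1, Fintype.card_piFinset_const]

theorem card_Om (τ : ℕ) :
    (Fintype.card (V → Fin τ → C) : ℝ) = (Fintype.card (V → C) : ℝ) ^ τ := by
  have := card_rounds (V := V) (C := C) (fun _ => True) τ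
  simp only [implies_true, Finset.filter_true, Finset.card_univ] at this
  exact_mod_cast this

/-- the neighbours of `v` that are not covered in any round -/
noncomputable def unc (G : SimpleGraph V) (H : SimpleGraph C) {τ : ℕ} (ω : V → Fin τ → C) (v : V) :
    Finset V :=
  univ.filter fun w => G.Adj v w ∧ ∀ j, ¬ (kept G H fun x => ω x j).Adj v w

theorem bad_count (G : SimpleGraph V) (H : SimpleGraph C) (D k m τ : ℕ) (q : ℝ) (hq0 : 0 ≤ q)
    (v : V) (hD : (univ.filter fun w => G.Adj v w).card ≤ D)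
    (hq : ∀ S : Finset V, (∀ w ∈ S, G.Adj v w) → S.card = k →
      ∑ f : V → C, ind (∀ w ∈ S, ¬ (kept G H f).Adj v w) ≤ (Fintype.card (V → C) : ℝ) * q) :
    (m.choose k : ℝ) * cnt (fun ω : V → Fin τ → C => m ≤ (unc G H ω v).card) ≤
      (D.choose k : ℝ) * q ^ τ * Fintype.card (V → Fin τ → C) := by
  set Nv := univ.filter fun w => G.Adj v w with hNv
  have h1 : ∀ ω : V → Fin τ → C, (m.choose k : ℝ) * ind (m ≤ (unc G H ω v).card) ≤
      ∑ S ∈ Nv.powersetCard k, ind (∀ j, ∀ w ∈ S, ¬ (kept G H fun x => ω x j).Adj v w) := by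
    intro ω
    have e : ∑ S ∈ Nv.powersetCard k, ind (∀ j, ∀ w ∈ S, ¬ (kept G H fun x => ω x j).Adj v w) =
        ((unc G H ω v).card.choose k : ℝ) := by
      have h2 : (Nv.powersetCard k).filter
          (fun S => ∀ j, ∀ w ∈ S, ¬ (kept G H fun x => ω x j).Adj v w) =
          (unc G H ω v).powersetCard k := by
        ext S
        simp only [Finset.mem_filter, Finset.mem_powersetCard, unc, Finset.subset_iff, hNv,
          Finset.mem_univ, true_and]
        constructor
        · rintro ⟨⟨ha, hb⟩, hc⟩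
          exact ⟨fun x hx => ⟨ha hx, fun j => hc j x hx⟩, hb⟩
        · rintro ⟨ha, hb⟩
          exact ⟨⟨fun x hx => (ha hx).1, hb⟩, fun j w hw => (ha hw).2 j⟩
      rw [← Finset.card_powersetCard, ← h2, Finset.card_filter, Nat.cast_sum]
      refine Finset.sum_congr rfl fun S _ => ?_
      unfold ind
      split_ifs <;> simp
    rw [e]
    by_cases hm : m ≤ (unc G H ω v).card
    · rw [ind_true hm, mul_one]
      exact_mod_cast Nat.choose_le_choose k hm
    · rw [ind_false hm, mul_zero]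
      exact Nat.cast_nonneg _
  have h2 : (cnt (fun ω : V → Fin τ → C => m ≤ (unc G H ω v).card) : ℝ) =
      ∑ ω : V → Fin τ → C, ind (m ≤ (unc G H ω v).card) := by
    unfold cnt ev
    rw [Finset.card_filter, Nat.cast_sum]
    refine Finset.sum_congr rfl fun ω _ => ?_
    unfold ind
    split_ifs <;> simp
  rw [h2, Finset.mul_sum]
  refine (Finset.sum_le_sum fun ω _ => h1 ω).trans ?_
  rw [Finset.sum_comm]
  have h3 : ∀ S ∈ Nv.powersetCard k,
      ∑ ω : V → Fin τ → C, ind (∀ j, ∀ w ∈ S, ¬ (kept G H fun x => ω x j).Adj v w) ≤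
        q ^ τ * Fintype.card (V → Fin τ → C) := by
    intro S hS
    rw [Finset.mem_powersetCard] at hS
    have ha : ∀ w ∈ S, G.Adj v w := fun w hw => by
      have := hS.1 hw
      rw [hNv, Finset.mem_filter] at this
      exact this.2
    have h4 : ∑ ω : V → Fin τ → C, ind (∀ j, ∀ w ∈ S, ¬ (kept G H fun x => ω x j).Adj v w) =
        (∑ f : V → C, ind (∀ w ∈ S, ¬ (kept G H f).Adj v w)) ^ τ := by
      have h5 := card_rounds (V := V) (C := C) (fun f => ∀ w ∈ S, ¬ (kept G H f).Adj v w) τ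
      have h6 : ∑ ω : V → Fin τ → C, ind (∀ j, ∀ w ∈ S, ¬ (kept G H fun x => ω x j).Adj v w) =
          ((univ.filter fun ω : V → Fin τ → C =>
            ∀ j, ∀ w ∈ S, ¬ (kept G H fun x => ω x j).Adj v w).card : ℝ) := by
        rw [Finset.card_filter, Nat.cast_sum]
        refine Finset.sum_congr rfl fun ω _ => ?_
        unfold ind
        split_ifs <;> simp
      have h7 : ∑ f : V → C, ind (∀ w ∈ S, ¬ (kept G H f).Adj v w) =
          ((univ.filter fun f : V → C => ∀ w ∈ S, ¬ (kept G H f).Adj v w).card : ℝ) := by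
        rw [Finset.card_filter, Nat.cast_sum]
        refine Finset.sum_congr rfl fun ω _ => ?_
        unfold ind
        split_ifs <;> simp
      rw [h6, h7, ← Nat.cast_pow]
      congr 1
      convert h5
    rw [h4, card_Om, ← mul_pow]
    refine pow_le_pow_left₀ (Finset.sum_nonneg fun _ _ => ind_nonneg _) ?_ τ
    rw [mul_comm]
    exact hq S ha hS.2
  refine (Finset.sum_le_sum h3).trans ?_
  rw [Finset.sum_const, nsmul_eq_mul, Finset.card_powersetCard, mul_assoc]
  refine mul_le_mul_of_nonneg_right ?_ (mul_nonneg (pow_nonneg hq0 _) (Nat.cast_nonneg _))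
  exact_mod_cast Nat.choose_le_choose k hD

/-- closed neighbourhood -/
noncomputable def N1 (G : SimpleGraph V) (v : V) : Finset V :=
  insert v (univ.filter fun w => G.Adj v w)

/-- ball of radius two -/
noncomputable def N2 (G : SimpleGraph V) (v : V) : Finset V := (N1 G v).biUnion (N1 G)

theorem mem_N1 (G : SimpleGraph V) {v w : V} : w ∈ N1 G v ↔ w = v ∨ G.Adj v w := by
  unfold N1
  rw [Finset.mem_insert, Finset.mem_filter]
  simp

theorem N1_symm (G : SimpleGraph V) {v w : V} (h : w ∈ N1 G v) : v ∈ N1 G w := by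
  rw [mem_N1] at h ⊢
  rcases h with rfl | h
  · exact Or.inl rfl
  · exact Or.inr h.symm

theorem mem_N2 (G : SimpleGraph V) {v w : V} : w ∈ N2 G v ↔ ∃ u ∈ N1 G v, w ∈ N1 G u := by
  unfold N2
  rw [Finset.mem_biUnion]

theorem N2_symm (G : SimpleGraph V) {v w : V} (h : w ∈ N2 G v) : v ∈ N2 G w := by
  rw [mem_N2] at h ⊢
  obtain ⟨u, h1, h2⟩ := h
  exact ⟨u, N1_symm G h2, N1_symm G h1⟩

theorem N1_card (G : SimpleGraph V) (D : ℕ) (hD : ∀ v, (univ.filter fun w => G.Adj v w).card ≤ D)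
    (v : V) : (N1 G v).card ≤ D + 1 :=
  (Finset.card_insert_le _ _).trans (Nat.add_le_add_right (hD v) 1)

theorem N2_card (G : SimpleGraph V) (D : ℕ) (hD : ∀ v, (univ.filter fun w => G.Adj v w).card ≤ D)
    (v : V) : (N2 G v).card ≤ (D + 1) ^ 2 := by
  refine Finset.card_biUnion_le.trans ?_
  refine (Finset.sum_le_card_nsmul _ _ (D + 1) fun w _ => N1_card G D hD w).trans ?_
  rw [smul_eq_mul, sq]
  exact Nat.mul_le_mul_right _ (N1_card G D hD v)

theorem near_card (G : SimpleGraph V) (D : ℕ)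
    (hD : ∀ v, (univ.filter fun w => G.Adj v w).card ≤ D) (v : V) :
    ((univ : Finset V).filter fun w => ¬ Disjoint (N2 G v) (N2 G w)).card ≤ (D + 1) ^ 4 := by
  have h1 : ((univ : Finset V).filter fun w => ¬ Disjoint (N2 G v) (N2 G w)) ⊆
      (N2 G v).biUnion (N2 G) := by
    intro w hw
    rw [Finset.mem_filter, Finset.not_disjoint_iff] at hw
    obtain ⟨x, hx, hx'⟩ := hw.2
    rw [Finset.mem_biUnion]
    exact ⟨x, hx, N2_symm G hx'⟩
  refine (Finset.card_le_card h1).trans (Finset.card_biUnion_le.trans ?_)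
  refine (Finset.sum_le_card_nsmul _ _ ((D + 1) ^ 2) fun w _ => N2_card G D hD w).trans ?_
  rw [smul_eq_mul, show (D + 1) ^ 4 = (D + 1) ^ 2 * (D + 1) ^ 2 by ring]
  exact Nat.mul_le_mul_right _ (N2_card G D hD v)

theorem unc_dep (G : SimpleGraph V) (H : SimpleGraph C) {τ : ℕ} (m : ℕ) (v : V) :
    Pool.Agent.Helper635.LLL.DependsOn
      (fun ω : V → Fin τ → C => m ≤ (unc G H ω v).card) (N2 G v) := by
  intro ω ω' h hm
  have e : unc G H ω' v = unc G H ω v := by
    unfold unc
    refine Finset.filter_congr fun w _ => ?_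
    refine and_congr_right fun hvw => forall_congr' fun j => not_congr ?_
    have hv : ω v = ω' v := h v ((mem_N2 G).2 ⟨v, (mem_N1 G).2 (Or.inl rfl),
      (mem_N1 G).2 (Or.inl rfl)⟩)
    have h1 : ∀ u, G.Adj v u → ω u = ω' u := fun u hu => h u ((mem_N2 G).2
      ⟨v, (mem_N1 G).2 (Or.inl rfl), (mem_N1 G).2 (Or.inr hu)⟩)
    have h2 : ∀ u, G.Adj w u → ω u = ω' u := fun u hu => h u ((mem_N2 G).2
      ⟨w, (mem_N1 G).2 (Or.inr hvw), (mem_N1 G).2 (Or.inr hu)⟩)
    have hw := h1 w hvw
    show (G.Adj v w ∧ H.Adj (ω' v j) (ω' w j) ∧ (∀ u, G.Adj v u → u ≠ w → ω' u j ≠ ω' w j) ∧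
      ∀ u, G.Adj w u → u ≠ v → ω' u j ≠ ω' v j) ↔ (G.Adj v w ∧ H.Adj (ω v j) (ω w j) ∧
      (∀ u, G.Adj v u → u ≠ w → ω u j ≠ ω w j) ∧ ∀ u, G.Adj w u → u ≠ v → ω u j ≠ ω v j)
    rw [hv, hw]
    refine and_congr_right fun _ => and_congr_right fun _ => and_congr ?_ ?_
    · exact forall_congr' fun u => forall_congr' fun hu => by rw [h1 u hu]
    · exact forall_congr' fun u => forall_congr' fun hu => by rw [h2 u hu]
  show m ≤ (unc G H ω' v).card
  rw [e]
  exact hm

/-- the main step: after `τ` rounds fewer than `m` edges are left at every vertex -/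
theorem rounds {s t : ℕ} (hs : 1 ≤ s) (ht : 1 ≤ t) (G : SimpleGraph V) (H : SimpleGraph C)
    (hH : Fr s t H) (D k m τ : ℕ) (q : ℝ) (hD : ∀ v, (univ.filter fun w => G.Adj v w).card ≤ D)
    (hN : 0 < Fintype.card C) (hq0 : 0 ≤ q)
    (hq : 1 - k * (M1 H / (Fintype.card C : ℝ) ^ 2 * (1 - 2 * D / (Fintype.card C : ℝ))) +
      (k : ℝ) ^ 2 / 2 * (M2 H / (Fintype.card C : ℝ) ^ 3) ≤ q) (hkm : k ≤ m)
    (hL : 4 * ((D.choose k : ℝ) / m.choose k * q ^ τ) * ((D + 1) ^ 4 : ℕ) ≤ 1) :
    ∃ A : Fin τ → SimpleGraph V, (∀ j, A j ≤ G) ∧ (∀ j, Fr s t (A j)) ∧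
      ∀ v, (univ.filter fun w => G.Adj v w ∧ ∀ j, ¬ (A j).Adj v w).card < m := by
  have hne : 0 < Fintype.card (V → Fin τ → C) := by
    have : Nonempty C := Fintype.card_pos_iff.1 hN
    exact Fintype.card_pos
  have hmk : (0 : ℝ) < m.choose k := by exact_mod_cast Nat.choose_pos hkm
  obtain ⟨ω, hω⟩ := lll (T := V) (C := Fin τ → C) (ι := V) univ
    (fun v ω => m ≤ (unc G H ω v).card) (N2 G) (fun v _ => unc_dep G H m v)
    ((D.choose k : ℝ) / m.choose k * q ^ τ) ((D + 1) ^ 4) (by positivity)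
    (fun v _ => by
      have := bad_count G H D k m τ q hq0 v (hD v) fun S hS hk => by
        refine (sum_none G H D hD v S hS hN).trans ?_
        refine mul_le_mul_of_nonneg_left ?_ (Nat.cast_nonneg _)
        rw [hk]
        exact hq
      have h2 : (cnt (fun ω : V → Fin τ → C => m ≤ (unc G H ω v).card) : ℝ) ≤
          ((D.choose k : ℝ) * q ^ τ * Fintype.card (V → Fin τ → C)) / m.choose k := by
        rw [le_div_iff₀ hmk, mul_comm]
        exact this
      refine h2.trans (le_of_eq ?_)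
      field_simp)
    (fun v _ => near_card G D hD v) hL (Nat.one_le_pow _ _ (Nat.succ_pos _)) hne
  refine ⟨fun j => kept G H fun x => ω x j, fun j => kept_le _ _ _,
    fun j => kept_fr hs ht G H hH _, fun v => ?_⟩
  exact not_le.1 (hω v (Finset.mem_univ v))

end Pool.Agent.H94.RR
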